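import Mathlib

/-!
Herglotz' theorem: a positive definite function on `ℤ` is the sequence of Fourier coefficients of a
probability measure on the circle.
-/

set_option autoImplicit false

open MeasureTheory Filter Topology Finset
open scoped ENNReal NNReal ComplexOrder

namespace Pool.Agent.H71.WW

/-- the circle -/
abbrev TC : Type := UnitAddCircle

lemma integrable_cont (μ : Measure TC) [IsFiniteMeasure μ] (f : C(TC, ℂ)) : Integrable f μ :=
  Integrable.of_bound f.continuous.aestronglyMeasurable ‖f‖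
    (Eventually.of_forall fun x => f.norm_coe_le_norm x)

lemma integral_fourier_zero {n : ℤ} (hn : n ≠ 0) : ∫ x : TC, fourier n x = 0 := by
  have h := orthonormal_fourier (T := (1 : ℝ))
  have h1 := h.2 (i := 0) (j := n) (Ne.symm hn)
  have e : (AddCircle.haarAddCircle : Measure (AddCircle (1 : ℝ))) = volume := by
    rw [AddCircle.volume_eq_smul_haarAddCircle]; simp
  have h2 := ContinuousMap.inner_toLp (𝕜 := ℂ) (AddCircle.haarAddCircle : Measure (AddCircle (1:ℝ)))
    (fourier 0) (fourier n)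
  rw [show inner ℂ (ContinuousMap.toLp 2 AddCircle.haarAddCircle ℂ (fourier (T := (1:ℝ)) 0))
    (ContinuousMap.toLp 2 AddCircle.haarAddCircle ℂ (fourier (T := (1:ℝ)) n)) = (0 : ℂ) from h1] at h2
  rw [e] at h2
  simpa using h2.symm

/-- approximation of continuous functions by trigonometric polynomials -/
lemma trig_approx (f : C(TC, ℂ)) {ε : ℝ} (hε : 0 < ε) :
    ∃ (M : Finset ℤ) (c : ℤ → ℂ), ∀ x, ‖f x - ∑ m ∈ M, c m * fourier m x‖ ≤ ε := by
  have hmem : f ∈ (Submodule.span ℂ (Set.range (fourier (T := (1 : ℝ))))).topologicalClosure := by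
    rw [span_fourier_closure_eq_top]
    exact Submodule.mem_top
  rw [← SetLike.mem_coe, Submodule.topologicalClosure_coe, Metric.mem_closure_iff] at hmem
  obtain ⟨g, hg, hfg⟩ := hmem ε hε
  obtain ⟨c, rfl⟩ := (Finsupp.mem_span_range_iff_exists_finsupp).1 hg
  refine ⟨c.support, c, fun x => ?_⟩
  have h1 := ContinuousMap.dist_lt_iff hε |>.1 hfg x
  rw [dist_eq_norm] at h1
  refine le_trans (le_of_eq ?_) h1.le
  congr 2
  rw [Finsupp.sum, ContinuousMap.sum_apply]
  rfl

/-- the Fejer density -/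
noncomputable def dens (c : ℤ → ℂ) (N : ℕ) (x : TC) : ℂ :=
  ∑ j ∈ range N, ∑ k ∈ range N, c ((j : ℤ) - k) * fourier ((k : ℤ) - j) x

lemma dens_nonneg {c : ℤ → ℂ}
    (hc : ∀ N : ℕ, ∀ a : ℕ → ℂ, 0 ≤ ∑ j ∈ range N, ∑ k ∈ range N, star (a k) * a j * c (j - k))
    (N : ℕ) (x : TC) : 0 ≤ dens c N x := by
  refine le_of_le_of_eq (hc N (fun j => fourier (-(j : ℤ)) x)) ?_
  unfold dens
  refine sum_congr rfl fun j _ => sum_congr rfl fun k _ => ?_
  have h1 : star (fourier (-(k : ℤ)) x : ℂ) = fourier (k : ℤ) x := by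
    have := fourier_neg (T := (1 : ℝ)) (n := -(k : ℤ)) (x := x)
    rw [neg_neg] at this
    rw [this]; rfl
  rw [h1, ← fourier_add, ← sub_eq_add_neg, mul_comm]

lemma continuous_dens (c : ℤ → ℂ) (N : ℕ) : Continuous (dens c N) := by
  unfold dens
  exact continuous_finsetSum _ fun j _ => continuous_finsetSum _ fun k _ =>
    continuous_const.mul (fourier _).continuous

/-- the number of pairs with a given difference -/
noncomputable def cnt (N : ℕ) (n : ℤ) : ℂ :=
  ∑ j ∈ range N, ∑ k ∈ range N, if (j : ℤ) - k = n then 1 else 0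

lemma integral_fourier' (n : ℤ) :
    ∫ x, fourier n x ∂(volume : Measure TC) = if n = 0 then 1 else 0 := by
  split_ifs with h
  · subst h
    have : IsProbabilityMeasure (volume : Measure TC) := ⟨UnitAddCircle.measure_univ⟩
    simp
  · exact integral_fourier_zero h

lemma integral_dens (c : ℤ → ℂ) (N : ℕ) (n : ℤ) :
    ∫ x, dens c N x * fourier n x ∂(volume : Measure TC) = c n * cnt N n := by
  have h1 : ∀ x : TC, dens c N x * fourier n x =
      ∑ j ∈ range N, ∑ k ∈ range N, c ((j : ℤ) - k) * fourier ((k : ℤ) - j + n) x := by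
    intro x
    unfold dens
    rw [sum_mul]
    refine sum_congr rfl fun j _ => ?_
    rw [sum_mul]
    refine sum_congr rfl fun k _ => ?_
    rw [mul_assoc, ← fourier_add]
  simp_rw [h1]
  have hi : ∀ m : ℤ, ∀ z : ℂ, Integrable (fun x : TC => z * fourier m x) volume := fun m z =>
    (integrable_cont volume (fourier m)).const_mul z
  rw [integral_finsetSum _ fun j _ => integrable_finsetSum _ fun k _ => hi _ _]
  unfold cnt
  rw [mul_sum]
  refine sum_congr rfl fun j _ => ?_
  rw [integral_finsetSum _ fun k _ => hi _ _, mul_sum]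
  refine sum_congr rfl fun k _ => ?_
  rw [integral_const_mul, integral_fourier']
  by_cases h : (j : ℤ) - k = n
  · have h' : (k : ℤ) - j + n = 0 := by omega
    simp [h, h']
  · have h' : ¬ ((k : ℤ) - j + n = 0) := by omega
    simp [h, h']

lemma cnt_eq (N : ℕ) (n : ℤ) (hn : n.natAbs ≤ N) : cnt N n = ((N : ℂ) - n.natAbs) := by
  unfold cnt
  have h1 : ∀ j ∈ range N, (∑ k ∈ range N, if (j : ℤ) - k = n then (1 : ℂ) else 0) =
      if (n ≤ j ∧ (j : ℤ) < N + n) then 1 else 0 := by
    intro j hj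
    by_cases h : n ≤ j ∧ (j : ℤ) < N + n
    · rw [if_pos h]
      have hk : (((j : ℤ) - n).toNat) ∈ range N := by
        rw [mem_range]; omega
      rw [sum_eq_single_of_mem _ hk]
      · rw [if_pos]; omega
      · intro k _ hne
        rw [if_neg]; omega
    · rw [if_neg h]
      refine sum_eq_zero fun k hk => ?_
      rw [mem_range] at hk
      rw [if_neg]; omega
  rw [sum_congr rfl h1, ← sum_filter, sum_const, nsmul_eq_mul, mul_one]
  have h2 : #((range N).filter fun j : ℕ => n ≤ (j : ℤ) ∧ (j : ℤ) < N + n) = N - n.natAbs := by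
    have h3 : ((range N).filter fun j : ℕ => n ≤ (j : ℤ) ∧ (j : ℤ) < N + n) =
        Finset.Ico n.toNat (N - (-n).toNat) := by
      ext j
      simp only [mem_filter, mem_range, mem_Ico]
      omega
    rw [h3, Nat.card_Ico]; omega
  rw [h2, Nat.cast_sub hn]

/-- the approximating probability measures -/
lemma exists_approx {c : ℤ → ℂ} (h0 : c 0 = 1)
    (hc : ∀ N : ℕ, ∀ a : ℕ → ℂ, 0 ≤ ∑ j ∈ range N, ∑ k ∈ range N, star (a k) * a j * c (j - k))
    (N : ℕ) (hN : 1 ≤ N) :
    ∃ P : ProbabilityMeasure TC, ∀ n : ℤ,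
      ∫ x, fourier n x ∂(P : Measure TC) = (N : ℂ)⁻¹ * (c n * cnt N n) := by
  have hN0 : (N : ℂ) ≠ 0 := by exact_mod_cast (by omega : N ≠ 0)
  set d : TC → ℝ≥0∞ := fun x => ENNReal.ofReal (((N : ℂ)⁻¹ * dens c N x).re) with hd
  have hdm : Measurable d :=
    ((Complex.continuous_re.comp (continuous_const.mul (continuous_dens c N))).measurable).ennreal_ofReal
  have hre : ∀ x, (((d x).toReal : ℝ) : ℂ) = (N : ℂ)⁻¹ * dens c N x := by
    intro x
    have h1 : 0 ≤ (N : ℂ)⁻¹ * dens c N x := by
      refine mul_nonneg ?_ (dens_nonneg hc N x)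
      have : (N : ℂ)⁻¹ = (((N : ℝ)⁻¹ : ℝ) : ℂ) := by push_cast; rfl
      rw [this, Complex.zero_le_real]
      positivity
    have h2 : 0 ≤ ((N : ℂ)⁻¹ * dens c N x).re := (Complex.nonneg_iff.1 h1).1
    have h3 : 0 = ((N : ℂ)⁻¹ * dens c N x).im := (Complex.nonneg_iff.1 h1).2
    rw [hd]
    simp only
    rw [ENNReal.toReal_ofReal h2]
    apply Complex.ext
    · simp
    · rw [← h3]; simp
  have hint : ∀ f : TC → ℂ, ∫ x, f x ∂((volume : Measure TC).withDensity d) =
      ∫ x, (N : ℂ)⁻¹ * dens c N x * f x ∂(volume : Measure TC) := by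
    intro f
    rw [integral_withDensity_eq_integral_toReal_smul hdm
      (Eventually.of_forall fun x => ENNReal.ofReal_lt_top)]
    refine integral_congr_ae (Eventually.of_forall fun x => ?_)
    simp only
    rw [← hre x]; rfl
  have hfin : IsFiniteMeasure ((volume : Measure TC).withDensity d) := by
    refine isFiniteMeasure_withDensity_ofReal ?_
    refine Integrable.hasFiniteIntegral ?_
    have h1 : Integrable (fun x : TC => (N : ℂ)⁻¹ * dens c N x) volume :=
      integrable_cont volume ⟨_, continuous_const.mul (continuous_dens c N)⟩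
    exact h1.re
  have hform : ∀ n : ℤ, ∫ x, fourier n x ∂((volume : Measure TC).withDensity d) =
      (N : ℂ)⁻¹ * (c n * cnt N n) := by
    intro n
    rw [hint]
    simp_rw [mul_assoc]
    rw [integral_const_mul, integral_dens]
  have hprob : IsProbabilityMeasure ((volume : Measure TC).withDensity d) := by
    have h1 := hform 0
    have h2 : ∫ x, fourier 0 x ∂((volume : Measure TC).withDensity d) =
        ((((volume : Measure TC).withDensity d).real Set.univ : ℝ) : ℂ) := by
      simp
    rw [h2, h0, cnt_eq N 0 (by simp)] at h1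
    simp only [Int.natAbs_zero, Nat.cast_zero, sub_zero, one_mul] at h1
    rw [inv_mul_cancel₀ hN0] at h1
    have h3 : ((volume : Measure TC).withDensity d).real Set.univ = 1 := by exact_mod_cast h1
    exact isProbabilityMeasure_iff_real.2 h3
  exact ⟨⟨_, hprob⟩, hform⟩

/-- **Herglotz' theorem.** -/
theorem herglotz {c : ℤ → ℂ} (h0 : c 0 = 1)
    (hc : ∀ N : ℕ, ∀ a : ℕ → ℂ, 0 ≤ ∑ j ∈ range N, ∑ k ∈ range N, star (a k) * a j * c (j - k)) :
    ∃ μ : Measure TC, IsProbabilityMeasure μ ∧ ∀ n : ℤ, ∫ x, fourier n x ∂μ = c n := by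
  choose P hP using fun N : ℕ => exists_approx h0 hc (N + 1) (by omega)
  let U : Ultrafilter ℕ := Ultrafilter.of atTop
  have hU : (U : Filter ℕ) ≤ atTop := Ultrafilter.of_le atTop
  obtain ⟨μ, -, hμ⟩ := isCompact_univ.ultrafilter_le_nhds (U.map P) (by simp)
  have hμ' : Tendsto P U (𝓝 μ) := hμ
  refine ⟨μ, inferInstance, fun n => ?_⟩
  rw [ProbabilityMeasure.tendsto_iff_forall_integral_rclike_tendsto ℂ] at hμ'
  have h1 := hμ' (BoundedContinuousFunction.mkOfCompact (fourier n))
  simp only [BoundedContinuousFunction.mkOfCompact_apply] at h1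
  have h2 : Tendsto (fun N : ℕ => ∫ x, fourier n x ∂(P N : Measure TC)) U (𝓝 (c n)) := by
    refine Tendsto.mono_left ?_ hU
    have h3 : ∀ᶠ N : ℕ in atTop, c n * (1 - (n.natAbs : ℂ) * ((N : ℂ) + 1)⁻¹) =
        ∫ x, fourier n x ∂(P N : Measure TC) := by
      filter_upwards [eventually_ge_atTop n.natAbs] with N hN
      rw [hP, cnt_eq (N + 1) n (by omega)]
      have : ((N : ℂ) + 1) ≠ 0 := by exact_mod_cast Nat.succ_ne_zero N
      push_cast
      field_simp
    refine Tendsto.congr' h3 ?_
    have h4 : Tendsto (fun N : ℕ => ((N : ℂ) + 1)⁻¹) atTop (𝓝 0) := by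
      have := tendsto_one_div_add_atTop_nhds_zero_nat (𝕜 := ℂ)
      simpa [one_div] using this
    have h5 : Tendsto (fun N : ℕ => c n * (1 - (n.natAbs : ℂ) * ((N : ℂ) + 1)⁻¹)) atTop
        (𝓝 (c n * (1 - (n.natAbs : ℂ) * 0))) :=
      (tendsto_const_nhds.sub (h4.const_mul _)).const_mul _
    simpa using h5
  exact tendsto_nhds_unique h1 h2

/-- finite measures with the same Fourier coefficients -/
theorem uniq_fourier {μ ν : Measure TC} [IsFiniteMeasure μ] [IsFiniteMeasure ν]
    (h : ∀ n : ℤ, ∫ x, fourier n x ∂μ = ∫ x, fourier n x ∂ν) : μ = ν := by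
  have key : ∀ f : C(TC, ℂ), ∫ x, f x ∂μ = ∫ x, f x ∂ν := by
    intro f
    rw [← sub_eq_zero, ← norm_le_zero_iff]
    refine le_of_forall_pos_le_add fun ε hε => ?_
    rw [zero_add]
    obtain ⟨M, c, hM⟩ := trig_approx f (ε := ε / (μ.real Set.univ + ν.real Set.univ + 1))
      (by positivity)
    set δ := ε / (μ.real Set.univ + ν.real Set.univ + 1) with hδ
    have hδ0 : 0 ≤ δ := by positivity
    have e : ∀ (ρ : Measure TC) [IsFiniteMeasure ρ], ∫ x, ∑ m ∈ M, c m * fourier m x ∂ρ =
        ∑ m ∈ M, c m * ∫ x, fourier m x ∂ρ := by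
      intro ρ _
      rw [integral_finsetSum _ fun m _ => (integrable_cont ρ (fourier m)).const_mul _]
      exact sum_congr rfl fun m _ => integral_const_mul _ _
    have b : ∀ (ρ : Measure TC) [IsFiniteMeasure ρ], ‖∫ x, f x ∂ρ -
        ∑ m ∈ M, c m * ∫ x, fourier m x ∂ρ‖ ≤ δ * ρ.real Set.univ := by
      intro ρ _
      rw [← e ρ, ← integral_sub (integrable_cont ρ f)
        (integrable_finsetSum _ fun m _ => (integrable_cont ρ (fourier m)).const_mul _)]
      refine (norm_integral_le_of_norm_le_const (Eventually.of_forall hM))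
    have h1 := b μ
    have h2 := b ν
    have h3 : ∑ m ∈ M, c m * ∫ x, fourier m x ∂μ = ∑ m ∈ M, c m * ∫ x, fourier m x ∂ν :=
      sum_congr rfl fun m _ => by rw [h m]
    rw [h3] at h1
    have h4 := norm_sub_le (∫ x, f x ∂μ - ∑ m ∈ M, c m * ∫ x, fourier m x ∂ν)
      (∫ x, f x ∂ν - ∑ m ∈ M, c m * ∫ x, fourier m x ∂ν)
    rw [sub_sub_sub_cancel_right] at h4
    have h5 : δ * (μ.real Set.univ + ν.real Set.univ + 1) = ε := by
      rw [hδ]
      field_simp
    nlinarith
  refine ext_of_forall_integral_eq_of_IsFiniteMeasure fun f => ?_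
  have h1 := key ⟨fun x => (f x : ℂ), Complex.continuous_ofReal.comp f.continuous⟩
  simp only [ContinuousMap.coe_mk] at h1
  rw [integral_complex_ofReal, integral_complex_ofReal] at h1
  exact_mod_cast h1

/-- measurability of a family of probability measures from the Fourier coefficients -/
theorem meas_of_fourier {X : Type*} [MeasurableSpace X] {κ : X → Measure TC}
    (hp : ∀ x, IsProbabilityMeasure (κ x))
    (h : ∀ n : ℤ, Measurable fun x => ∫ t, fourier n t ∂(κ x)) : Measurable κ := by
  have key : ∀ f : C(TC, ℂ), Measurable fun x => ∫ t, f t ∂(κ x) := by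
    intro f
    choose M c hM using fun i : ℕ => trig_approx f (ε := 1 / ((i : ℝ) + 1)) (by positivity)
    refine measurable_of_tendsto_metrizable (f := fun i : ℕ => fun x =>
      ∑ m ∈ M i, c i m * ∫ t, fourier m t ∂(κ x)) (fun i => ?_) ?_
    · exact Finset.measurable_fun_sum _ fun m _ => (h m).const_mul _
    · rw [tendsto_pi_nhds]
      intro x
      rw [tendsto_iff_norm_sub_tendsto_zero]
      refine squeeze_zero (fun i => norm_nonneg _) (fun i => ?_)
        (tendsto_one_div_add_atTop_nhds_zero_nat (𝕜 := ℝ))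
      have e : ∑ m ∈ M i, c i m * ∫ t, fourier m t ∂(κ x) =
          ∫ t, ∑ m ∈ M i, c i m * fourier m t ∂(κ x) := by
        rw [integral_finsetSum _ fun m _ => (integrable_cont (κ x) (fourier m)).const_mul _]
        exact sum_congr rfl fun m _ => (integral_const_mul _ _).symm
      rw [e, norm_sub_rev, ← integral_sub (integrable_cont (κ x) f)
        (integrable_finsetSum _ fun m _ => (integrable_cont (κ x) (fourier m)).const_mul _)]
      refine (norm_integral_le_of_norm_le_const (Eventually.of_forall (hM i))).trans ?_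
      simp
  have key' : ∀ f : BoundedContinuousFunction TC ℝ≥0, Measurable fun x =>
      ∫⁻ t, (f t : ℝ≥0∞) ∂(κ x) := by
    intro f
    have h1 := key ⟨fun x => ((f x : ℝ) : ℂ), Complex.continuous_ofReal.comp
      (NNReal.continuous_coe.comp f.continuous)⟩
    have h2 : ∀ x, ∫⁻ t, (f t : ℝ≥0∞) ∂(κ x) =
        ENNReal.ofReal ((∫ t, ((f t : ℝ) : ℂ) ∂(κ x)).re) := by
      intro x
      rw [integral_complex_ofReal, Complex.ofReal_re]
      have h3 := lintegral_coe_eq_integral (μ := κ x) (fun t => f t) ?_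
      · exact h3
      · exact (integrable_cont (κ x) ⟨fun x => ((f x : ℝ) : ℂ), Complex.continuous_ofReal.comp
          (NNReal.continuous_coe.comp f.continuous)⟩).re
    simp_rw [h2]
    exact (Complex.measurable_re.comp h1).ennreal_ofReal
  refine Measurable.measure_of_isPiSystem_of_isProbabilityMeasure
    (borel_eq_generateFrom_isClosed (α := TC) ▸ BorelSpace.measurable_eq) isPiSystem_isClosed ?_
  intro A hA
  have hδ : ∀ n : ℕ, (0 : ℝ) < 1 / ((n : ℝ) + 1) := fun n => by positivity
  have h4 : ∀ x, Tendsto (fun n => ∫⁻ t, (thickenedIndicator (hδ n) A t : ℝ≥0∞) ∂(κ x)) atTop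
      (𝓝 (κ x A)) := fun x =>
    tendsto_lintegral_thickenedIndicator_of_isClosed (κ x) hA hδ
      (tendsto_one_div_add_atTop_nhds_zero_nat (𝕜 := ℝ))
  exact measurable_of_tendsto_metrizable (fun n => key' _) (tendsto_pi_nhds.2 h4)

end Pool.Agent.H71.WW
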