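import Mathlib

/-!
# Almost everywhere convergence of multiple averages along arbitrary families of maps:
closure properties (adapted from `Pool/Agent/W761/Box/Clos.lean`)
-/

set_option autoImplicit false

open Filter Topology MeasureTheory

noncomputable section

namespace Pool.Agent.H71.WW

/-- symmetric averages of complex numbers -/
def av (N : ℕ) (a : ℤ → ℂ) : ℂ :=
  ((2 * N + 1 : ℕ) : ℂ)⁻¹ * ∑ n ∈ Finset.Icc (-(N : ℤ)) (N : ℤ), a n

/-- symmetric averages of real numbers -/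
def avr (N : ℕ) (a : ℤ → ℝ) : ℝ :=
  ((2 * N + 1 : ℕ) : ℝ)⁻¹ * ∑ n ∈ Finset.Icc (-(N : ℤ)) (N : ℤ), a n

theorem card_Icc' (N : ℕ) : (Finset.Icc (-(N : ℤ)) (N : ℤ)).card = 2 * N + 1 := by
  rw [Int.card_Icc]
  omega

theorem av_add (N : ℕ) (a b : ℤ → ℂ) : av N (fun n => a n + b n) = av N a + av N b := by
  rw [av, av, av, Finset.sum_add_distrib, mul_add]

theorem av_sub (N : ℕ) (a b : ℤ → ℂ) : av N (fun n => a n - b n) = av N a - av N b := by
  rw [av, av, av, Finset.sum_sub_distrib, mul_sub]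

theorem av_mul (N : ℕ) (c : ℂ) (a : ℤ → ℂ) : av N (fun n => c * a n) = c * av N a := by
  rw [av, av, ← Finset.mul_sum]
  ring

theorem avr_mul (N : ℕ) (c : ℝ) (a : ℤ → ℝ) : avr N (fun n => c * a n) = c * avr N a := by
  rw [avr, avr, ← Finset.mul_sum]
  ring

theorem av_norm (N : ℕ) (a : ℤ → ℂ) : ‖av N a‖ ≤ avr N (fun n => ‖a n‖) := by
  rw [av, avr, norm_mul, norm_inv, Complex.norm_natCast]
  exact mul_le_mul_of_nonneg_left (norm_sum_le _ _) (by positivity)

theorem avr_mono {N : ℕ} {a b : ℤ → ℝ} (h : ∀ n, a n ≤ b n) : avr N a ≤ avr N b := by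
  rw [avr, avr]
  exact mul_le_mul_of_nonneg_left (Finset.sum_le_sum fun n _ => h n) (by positivity)

theorem avr_const (N : ℕ) (c : ℝ) : avr N (fun _ => c) = c := by
  rw [avr, Finset.sum_const, card_Icc', nsmul_eq_mul, ← mul_assoc, inv_mul_cancel₀, one_mul]
  positivity

theorem avr_nonneg {N : ℕ} {a : ℤ → ℝ} (h : ∀ n, 0 ≤ a n) : 0 ≤ avr N a := by
  rw [avr]
  exact mul_nonneg (by positivity) (Finset.sum_nonneg fun n _ => h n)

theorem avr_bound {N : ℕ} {a : ℤ → ℝ} {C : ℝ} (h : ∀ n, |a n| ≤ C) : |avr N a| ≤ C := by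
  have h1 : |avr N a| ≤ avr N (fun n => |a n|) := by
    rw [avr, avr, abs_mul, abs_of_nonneg (by positivity : (0 : ℝ) ≤ ((2 * N + 1 : ℕ) : ℝ)⁻¹)]
    exact mul_le_mul_of_nonneg_left (Finset.abs_sum_le_sum_abs _ _) (by positivity)
  exact (h1.trans (avr_mono h)).trans (avr_const N C).le

theorem av_bound {N : ℕ} {a : ℤ → ℂ} {C : ℝ} (h : ∀ n, ‖a n‖ ≤ C) : ‖av N a‖ ≤ C :=
  ((av_norm N a).trans (avr_mono h)).trans (avr_const N C).le

variable {X : Type*} [MeasurableSpace X] {J : Type*} [Fintype J] [DecidableEq J]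

/-- Bounded measurable functions. -/
def BM (f : X → ℂ) : Prop := Measurable f ∧ ∃ C : ℝ, ∀ x, ‖f x‖ ≤ C

/-- Convergence almost everywhere of the multiple averages along `g`. -/
def Cv (μ : Measure X) (g : J → ℤ → X → X) (F : J → X → ℂ) : Prop :=
  ∀ᵐ x ∂μ, ∃ L, Tendsto (fun N => av N fun n => ∏ j, F j (g j n x)) atTop (𝓝 L)

/-- The averages of one bounded function along `g` converge almost everywhere. -/
def SingleGood (μ : Measure X) (g : ℤ → X → X) : Prop :=
  ∀ G : X → ℝ, Measurable G → (∃ C : ℝ, ∀ x, |G x| ≤ C) →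
    ∀ᵐ x ∂μ, ∃ L : ℝ, Tendsto (fun N : ℕ => ((2 * N + 1 : ℕ) : ℝ)⁻¹ *
      ∑ n ∈ Finset.Icc (-(N : ℤ)) (N : ℤ), G (g n x)) atTop (𝓝 L)

theorem prod_update (g : J → ℤ → X → X) (F : J → X → ℂ) (j : J) (f : X → ℂ)
    (n : ℤ) (x : X) :
    ∏ l, (Function.update F j f) l (g l n x) =
      f (g j n x) * ∏ l ∈ Finset.univ.erase j, F l (g l n x) := by
  rw [← Finset.mul_prod_erase _ _ (Finset.mem_univ j), Function.update_self]
  congr 1
  apply Finset.prod_congr rfl
  intro l hl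
  rw [Function.update_of_ne (Finset.ne_of_mem_erase hl)]

theorem Cv_add {μ : Measure X} {g : J → ℤ → X → X} {F : J → X → ℂ} {j : J}
    {f f' : X → ℂ}
    (hf : Cv μ g (Function.update F j f)) (hg : Cv μ g (Function.update F j f')) :
    Cv μ g (Function.update F j (f + f')) := by
  filter_upwards [hf, hg] with x hx hx'
  obtain ⟨L, hL⟩ := hx
  obtain ⟨L', hL'⟩ := hx'
  refine ⟨L + L', (hL.add hL').congr fun N => ?_⟩
  rw [← av_add]
  congr 1
  funext n
  rw [prod_update, prod_update, prod_update, Pi.add_apply, add_mul]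

theorem Cv_smul {μ : Measure X} {g : J → ℤ → X → X} {F : J → X → ℂ} {j : J}
    {f : X → ℂ} (c : ℂ) (hf : Cv μ g (Function.update F j f)) :
    Cv μ g (Function.update F j (c • f)) := by
  filter_upwards [hf] with x hx
  obtain ⟨L, hL⟩ := hx
  refine ⟨c * L, (hL.const_mul c).congr fun N => ?_⟩
  rw [← av_mul]
  congr 1
  funext n
  rw [prod_update, prod_update, Pi.smul_apply, smul_eq_mul, mul_assoc]

theorem Cv_zero {μ : Measure X} {g : J → ℤ → X → X} {F : J → X → ℂ} {j : J} :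
    Cv μ g (Function.update F j (0 : X → ℂ)) := by
  refine Eventually.of_forall fun x => ⟨0, ?_⟩
  refine Tendsto.congr (fun N => ?_) (tendsto_const_nhds (x := (0 : ℂ)))
  rw [av]
  simp [prod_update]

/-- Bounded functions. -/
def Bd (f : X → ℂ) : Prop := ∃ C : ℝ, ∀ x, ‖f x‖ ≤ C

/-- a bound for the other factors -/
theorem exists_D {g : J → ℤ → X → X} {F : J → X → ℂ} (hF : ∀ l, Bd (F l)) (j : J) :
    ∃ D : ℝ, 0 < D ∧ ∀ (n : ℤ) (x : X), ‖∏ l ∈ Finset.univ.erase j, F l (g l n x)‖ ≤ D := by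
  choose CF hCF using hF
  refine ⟨∏ l ∈ Finset.univ.erase j, (|CF l| + 1), Finset.prod_pos fun l _ => by positivity, ?_⟩
  intro n x
  rw [norm_prod]
  apply Finset.prod_le_prod (fun l _ => norm_nonneg _)
  intro l _
  exact ((hCF l _).trans (le_abs_self _)).trans (by linarith)

/-- from oscillations to convergence -/
theorem Cv_of_bad {μ : Measure X} {g : J → ℤ → X → X} {F : J → X → ℂ}
    (hbad : ∀ δ : ℝ, 0 < δ → ∀ᵐ x ∂μ, ∃ N₀ : ℕ, ∀ N, N₀ ≤ N → ∀ M, N₀ ≤ M →
      ‖av N (fun n => ∏ j, F j (g j n x)) - av M (fun n => ∏ j, F j (g j n x))‖ ≤ δ) :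
    Cv μ g F := by
  have hall := ae_all_iff.mpr fun i : ℕ => hbad (1 / ((i : ℝ) + 1)) (by positivity)
  filter_upwards [hall] with x hx
  apply cauchySeq_tendsto_of_complete
  rw [Metric.cauchySeq_iff']
  intro ε hε
  obtain ⟨i, hi⟩ := exists_nat_one_div_lt hε
  obtain ⟨N₀, hN₀⟩ := hx i
  refine ⟨N₀, fun n hn => ?_⟩
  rw [dist_eq_norm]
  exact (hN₀ n hn N₀ le_rfl).trans_lt hi

/-- comparison -/
theorem compare {g : J → ℤ → X → X} {F : J → X → ℂ} {j : J} {D : ℝ}
    (hD : ∀ (n : ℤ) (x : X), ‖∏ l ∈ Finset.univ.erase j, F l (g l n x)‖ ≤ D)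
    (f f' : X → ℂ) (N : ℕ) (x : X) :
    ‖av N (fun n => ∏ l, (Function.update F j f) l (g l n x)) -
      av N (fun n => ∏ l, (Function.update F j f') l (g l n x))‖ ≤
      D * avr N (fun n => ‖f (g j n x) - f' (g j n x)‖) := by
  rw [← av_sub]
  refine (av_norm _ _).trans ?_
  rw [← avr_mul]
  apply avr_mono
  intro n
  rw [prod_update, prod_update, ← sub_mul, norm_mul, mul_comm]
  exact mul_le_mul_of_nonneg_right (hD _ x) (norm_nonneg _)

/-- uniform limits -/
theorem Cv_closed_sup {μ : Measure X} {g : J → ℤ → X → X}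
    {F : J → X → ℂ} (hF : ∀ l, Bd (F l)) {j : J} {f : X → ℂ}
    (h : ∀ ε : ℝ, 0 < ε → ∃ f' : X → ℂ, (∀ x, ‖f x - f' x‖ ≤ ε) ∧
      Cv μ g (Function.update F j f')) :
    Cv μ g (Function.update F j f) := by
  obtain ⟨D, hD0, hD⟩ := exists_D (g := g) hF j
  apply Cv_of_bad
  intro δ hδ
  obtain ⟨f', hff, hcv⟩ := h (δ / (4 * D)) (by positivity)
  filter_upwards [hcv] with x hx
  obtain ⟨L, hL⟩ := hx
  obtain ⟨N₀, hN₀⟩ := Metric.tendsto_atTop.mp hL (δ / 4) (by positivity)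
  have hclose : ∀ N, ‖av N (fun n => ∏ l, (Function.update F j f) l (g l n x)) -
      av N (fun n => ∏ l, (Function.update F j f') l (g l n x))‖ ≤ δ / 4 := by
    intro N
    refine (compare hD f f' N x).trans ?_
    calc D * avr N (fun n => ‖f (g j n x) - f' (g j n x)‖) ≤ D * (δ / (4 * D)) := by
          apply mul_le_mul_of_nonneg_left _ hD0.le
          exact (avr_mono fun n => hff _).trans (avr_const _ _).le
      _ = δ / 4 := by field_simp
  refine ⟨N₀, fun N hN M hM => ?_⟩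
  have a1 := hclose N
  have a2 := hclose M
  have a3 := hN₀ N hN
  have a4 := hN₀ M hM
  rw [dist_eq_norm] at a3 a4
  set u := av N (fun n => ∏ l, (Function.update F j f) l (g l n x))
  set u' := av N (fun n => ∏ l, (Function.update F j f') l (g l n x))
  set w := av M (fun n => ∏ l, (Function.update F j f) l (g l n x))
  set w' := av M (fun n => ∏ l, (Function.update F j f') l (g l n x))
  have e1 : u - w = (u - u') + (u' - L) - (w' - L) - (w - w') := by ring
  rw [e1]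
  have b1 := norm_sub_le ((u - u') + (u' - L) - (w' - L)) (w - w')
  have b2 := norm_sub_le ((u - u') + (u' - L)) (w' - L)
  have b3 := norm_add_le (u - u') (u' - L)
  linarith

/-- The integral of the limit. -/
theorem int_lim_le {μ : Measure X} [IsProbabilityMeasure μ] {φ : ℤ → X → X}
    (hφ : ∀ m, MeasurePreserving (φ m) μ μ)
    {G : X → ℝ} (hG : Measurable G) {C : ℝ} (hb : ∀ x, |G x| ≤ C)
    (h0 : ∀ x, 0 ≤ G x) {γ : X → ℝ}
    (hγ : ∀ᵐ x ∂μ, Tendsto (fun N => avr N (fun n => G (φ n x))) atTop (𝓝 (γ x))) :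
    0 ≤ᵐ[μ] γ ∧ Integrable γ μ ∧ ∫ x, γ x ∂μ ≤ ∫ x, G x ∂μ := by
  have hm : ∀ N, Measurable fun x => avr N (fun n => G (φ n x)) := by
    intro N
    unfold avr
    exact (Finset.measurable_fun_sum _ fun m _ => hG.comp (hφ m).measurable).const_mul _
  refine ⟨?_, ?_, ?_⟩
  · filter_upwards [hγ] with x hx
    exact ge_of_tendsto hx (Eventually.of_forall fun N => avr_nonneg fun m => h0 _)
  · have hms : AEStronglyMeasurable γ μ := aestronglyMeasurable_of_tendsto_ae atTop
        (fun N => (hm N).aestronglyMeasurable) hγ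
    refine Integrable.of_bound hms C ?_
    filter_upwards [hγ] with x hx
    rw [Real.norm_eq_abs]
    exact le_of_tendsto hx.abs (Eventually.of_forall fun N => avr_bound fun m => hb _)
  have h1 := tendsto_integral_filter_of_dominated_convergence (l := atTop) (fun _ => C)
    (Eventually.of_forall fun N => (hm N).aestronglyMeasurable)
    (Eventually.of_forall fun N => Eventually.of_forall fun x => by
      rw [Real.norm_eq_abs]
      exact avr_bound fun m => hb _)
    (integrable_const _) hγ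
  refine le_of_tendsto h1 (Eventually.of_forall fun N => ?_)
  have hGi : Integrable G μ := Integrable.of_bound hG.aestronglyMeasurable C
    (Eventually.of_forall fun x => by
      rw [Real.norm_eq_abs]
      exact hb x)
  have h2 : ∀ m, ∫ x, G (φ m x) ∂μ = ∫ x, G x ∂μ := by
    intro m
    have h3 := integral_map (μ := μ) (φ := φ m) (f := G)
      (hφ m).measurable.aemeasurable hG.aestronglyMeasurable
    rw [(hφ m).map_eq] at h3
    exact h3.symm
  have h4 : ∫ x, avr N (fun n => G (φ n x)) ∂μ = avr N (fun _ => ∫ x, G x ∂μ) := by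
    unfold avr
    rw [integral_const_mul, integral_finsetSum]
    · rw [Finset.sum_congr rfl fun m _ => h2 m]
    · intro m _
      exact (hφ m).integrable_comp_of_integrable hGi
  rw [h4, avr_const]

/-- The class of good functions is closed under limits in `L¹`, as soon as the averages of a
majorant of the error converge. -/
theorem Cv_closed' {μ : Measure X} [IsProbabilityMeasure μ] {g : J → ℤ → X → X}
    {F : J → X → ℂ} (hF : ∀ l, Bd (F l)) {j : J}
    (hg : ∀ m, MeasurePreserving (g j m) μ μ) {f : X → ℂ}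
    (h : ∀ ε : ℝ, 0 < ε → ∃ (f' : X → ℂ) (K : X → ℝ), Measurable K ∧ (∃ C, ∀ x, |K x| ≤ C) ∧
      (∀ x, ‖f x - f' x‖ ≤ K x) ∧ ∫ x, K x ∂μ ≤ ε ∧
      (∀ᵐ x ∂μ, ∃ L : ℝ, Tendsto (fun N => avr N fun n => K (g j n x)) atTop (𝓝 L)) ∧
      Cv μ g (Function.update F j f')) :
    Cv μ g (Function.update F j f) := by
  obtain ⟨D, hD0, hD⟩ := exists_D (g := g) hF j
  apply Cv_of_bad
  intro δ hδ
  rw [ae_iff, ← nonpos_iff_eq_zero]
  apply ENNReal.le_of_forall_pos_le_add
  intro ε hε _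
  rw [zero_add]
  have hε' : (0 : ℝ) < ε := by exact_mod_cast hε
  obtain ⟨f', K, hKm, ⟨CK, hKb⟩, hKf, hfg, hB, hcv⟩ := h (ε * (δ / (4 * D))) (by positivity)
  have hK0 : ∀ x, 0 ≤ K x := fun x => (norm_nonneg _).trans (hKf x)
  let E : X → ℝ := fun x => limUnder atTop (fun N => avr N fun n => K (g j n x))
  have hE : ∀ᵐ x ∂μ, Tendsto (fun N => avr N fun n => K (g j n x)) atTop (𝓝 (E x)) := by
    filter_upwards [hB] with x hx
    exact tendsto_nhds_limUnder hx
  obtain ⟨hE0, hEi, hEint⟩ := int_lim_le hg hKm hKb hK0 hE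
  have hmark := mul_meas_ge_le_integral_of_nonneg hE0 hEi (δ / (4 * D))
  have hmark' : μ.real {x | δ / (4 * D) ≤ E x} ≤ ε := by
    have h1 : δ / (4 * D) * μ.real {x | δ / (4 * D) ≤ E x} ≤ δ / (4 * D) * ε := by
      refine hmark.trans ((hEint.trans hfg).trans ?_)
      rw [mul_comm]
    exact le_of_mul_le_mul_left h1 (by positivity)
  have hsub : ∀ᵐ x ∂μ, x ∈ {x | ¬ ∃ N₀ : ℕ, ∀ N, N₀ ≤ N → ∀ M, N₀ ≤ M →
      ‖av N (fun n => ∏ l, (Function.update F j f) l (g l n x)) -
        av M (fun n => ∏ l, (Function.update F j f) l (g l n x))‖ ≤ δ} →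
        x ∈ {x | δ / (4 * D) ≤ E x} := by
    filter_upwards [hE, hcv] with x hx1 hx2 hx3
    show δ / (4 * D) ≤ E x
    by_contra hcon
    rw [not_le] at hcon
    apply hx3
    obtain ⟨L, hL⟩ := hx2
    have h2 := (tendsto_order.mp hx1).2 _ hcon
    obtain ⟨N₁, hN₁⟩ := eventually_atTop.mp h2
    obtain ⟨N₂, hN₂⟩ := Metric.tendsto_atTop.mp hL (δ / 4) (by positivity)
    have hclose : ∀ N, N₁ ≤ N → ‖av N (fun n => ∏ l, (Function.update F j f) l (g l n x)) -
        av N (fun n => ∏ l, (Function.update F j f') l (g l n x))‖ ≤ δ / 4 := by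
      intro N hN
      refine (compare hD f f' N x).trans ?_
      calc D * avr N (fun n => ‖f (g j n x) - f' (g j n x)‖) ≤
            D * avr N (fun n => K (g j n x)) :=
            mul_le_mul_of_nonneg_left (avr_mono fun n => hKf _) hD0.le
        _ ≤ D * (δ / (4 * D)) :=
            mul_le_mul_of_nonneg_left (hN₁ N hN).le hD0.le
        _ = δ / 4 := by field_simp
    refine ⟨max N₁ N₂, fun N hN M hM => ?_⟩
    have a1 := hclose N ((le_max_left _ _).trans hN)
    have a2 := hclose M ((le_max_left _ _).trans hM)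
    have a3 := hN₂ N ((le_max_right _ _).trans hN)
    have a4 := hN₂ M ((le_max_right _ _).trans hM)
    rw [dist_eq_norm] at a3 a4
    set u := av N (fun n => ∏ l, (Function.update F j f) l (g l n x))
    set u' := av N (fun n => ∏ l, (Function.update F j f') l (g l n x))
    set w := av M (fun n => ∏ l, (Function.update F j f) l (g l n x))
    set w' := av M (fun n => ∏ l, (Function.update F j f') l (g l n x))
    have e1 : u - w = (u - u') + (u' - L) - (w' - L) - (w - w') := by ring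
    rw [e1]
    have b1 := norm_sub_le ((u - u') + (u' - L) - (w' - L)) (w - w')
    have b2 := norm_sub_le ((u - u') + (u' - L)) (w' - L)
    have b3 := norm_add_le (u - u') (u' - L)
    linarith
  have h10 : μ {x | ¬ ∃ N₀ : ℕ, ∀ N, N₀ ≤ N → ∀ M, N₀ ≤ M →
      ‖av N (fun n => ∏ l, (Function.update F j f) l (g l n x)) -
        av M (fun n => ∏ l, (Function.update F j f) l (g l n x))‖ ≤ δ} ≤
      μ {x | δ / (4 * D) ≤ E x} := measure_mono_ae hsub
  refine h10.trans ?_
  have h9 : μ {x | δ / (4 * D) ≤ E x} = ENNReal.ofReal (μ.real {x | δ / (4 * D) ≤ E x}) := by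
    rw [measureReal_def, ENNReal.ofReal_toReal (measure_ne_top _ _)]
  rw [h9]
  calc ENNReal.ofReal (μ.real {x | δ / (4 * D) ≤ E x}) ≤ ENNReal.ofReal (ε : ℝ) :=
        ENNReal.ofReal_le_ofReal hmark'
    _ = ε := ENNReal.ofReal_coe_nnreal

/-- The class of good functions is closed under limits in `L¹`. -/
theorem Cv_closed {μ : Measure X} [IsProbabilityMeasure μ] {g : J → ℤ → X → X}
    {F : J → X → ℂ} (hF : ∀ l, Bd (F l)) {j : J}
    (hg : ∀ m, MeasurePreserving (g j m) μ μ) (hgood : SingleGood μ (g j)) {f : X → ℂ}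
    (hf : BM f)
    (h : ∀ ε : ℝ, 0 < ε → ∃ f' : X → ℂ, BM f' ∧ ∫ x, ‖f x - f' x‖ ∂μ ≤ ε ∧
      Cv μ g (Function.update F j f')) :
    Cv μ g (Function.update F j f) := by
  obtain ⟨hfm, Cf, hCf⟩ := hf
  apply Cv_closed' hF hg
  intro ε hε
  obtain ⟨f', ⟨hgm, Cg, hCg⟩, hfg, hcv⟩ := h ε hε
  have hKm : Measurable fun x => ‖f x - f' x‖ := (hfm.sub hgm).norm
  have hKb : ∀ x, |‖f x - f' x‖| ≤ |Cf + Cg| := fun x => by
    rw [abs_of_nonneg (norm_nonneg _)]
    exact ((norm_sub_le _ _).trans (add_le_add (hCf x) (hCg x))).trans (le_abs_self _)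
  exact ⟨f', fun x => ‖f x - f' x‖, hKm, ⟨_, hKb⟩, fun x => le_rfl, hfg,
    hgood _ hKm ⟨_, hKb⟩, hcv⟩

/-- From one-sided averages to symmetric averages. -/
theorem av_of_sides {u : ℤ → ℂ} {L M : ℂ} {C : ℝ} (hb : ‖u 0‖ ≤ C)
    (h1 : Tendsto (fun N : ℕ => (N : ℂ)⁻¹ * ∑ n ∈ Finset.range N, u (n : ℤ)) atTop (𝓝 L))
    (h2 : Tendsto (fun N : ℕ => (N : ℂ)⁻¹ * ∑ n ∈ Finset.range N, u (-(n : ℤ))) atTop (𝓝 M)) :
    Tendsto (fun N => av N u) atTop (𝓝 ((L + M) / 2)) := by
  have hsum : ∀ N : ℕ, ∑ n ∈ Finset.Icc (-(N : ℤ)) (N : ℤ), u n =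
      ∑ n ∈ Finset.range (N + 1), u (n : ℤ) + ∑ n ∈ Finset.range (N + 1), u (-(n : ℤ)) - u 0 := by
    intro N
    induction N with
    | zero => simp
    | succ N ih =>
      have e1 : Finset.Icc (-((N + 1 : ℕ) : ℤ)) ((N + 1 : ℕ) : ℤ) =
          insert (-((N + 1 : ℕ) : ℤ)) (insert ((N + 1 : ℕ) : ℤ)
            (Finset.Icc (-(N : ℤ)) (N : ℤ))) := by
        ext z
        simp only [Finset.mem_insert, Finset.mem_Icc]
        push_cast
        omega
      rw [e1, Finset.sum_insert, Finset.sum_insert, ih, Finset.sum_range_succ _ (N + 1),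
        Finset.sum_range_succ _ (N + 1)]
      · push_cast
        ring
      · simp only [Finset.mem_Icc]
        push_cast
        omega
      · simp only [Finset.mem_insert, Finset.mem_Icc]
        push_cast
        omega
  have h1' := h1.comp (tendsto_add_atTop_nat 1)
  have h2' := h2.comp (tendsto_add_atTop_nat 1)
  have hr : Tendsto (fun N : ℕ => ((2 * N + 1 : ℕ) : ℂ)⁻¹ * ((N + 1 : ℕ) : ℂ)) atTop
      (𝓝 (1 / 2)) := by
    have h3 : Tendsto (fun N : ℕ => ((2 * N + 1 : ℕ) : ℝ)⁻¹) atTop (𝓝 0) := by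
      have h4 : Tendsto (fun N : ℕ => 2 * N + 1) atTop atTop :=
        tendsto_atTop_mono (fun N => (by omega : N ≤ 2 * N + 1)) tendsto_id
      exact (tendsto_inv_atTop_nhds_zero_nat (𝕜 := ℝ)).comp h4
    have h5 : Tendsto (fun N : ℕ => (1 : ℝ) / 2 + (1 / 2) * ((2 * N + 1 : ℕ) : ℝ)⁻¹) atTop
        (𝓝 (1 / 2 + (1 / 2) * 0)) := (h3.const_mul _).const_add _
    have h6 : ∀ N : ℕ, ((2 * N + 1 : ℕ) : ℝ)⁻¹ * ((N + 1 : ℕ) : ℝ) =
        (1 : ℝ) / 2 + (1 / 2) * ((2 * N + 1 : ℕ) : ℝ)⁻¹ := by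
      intro N
      have : ((2 * N + 1 : ℕ) : ℝ) ≠ 0 := by positivity
      field_simp
      push_cast
      ring
    have h7 : Tendsto (fun N : ℕ => ((2 * N + 1 : ℕ) : ℝ)⁻¹ * ((N + 1 : ℕ) : ℝ)) atTop
        (𝓝 (1 / 2)) := by
      rw [mul_zero, add_zero] at h5
      exact h5.congr fun N => (h6 N).symm
    have h8 := (Complex.continuous_ofReal.tendsto _).comp h7
    refine (h8.congr fun N => ?_).trans (by norm_num)
    simp only [Function.comp_apply]
    push_cast
    ring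
  have h0 : Tendsto (fun N : ℕ => ((2 * N + 1 : ℕ) : ℂ)⁻¹ * u 0) atTop (𝓝 (0 * u 0)) := by
    apply Tendsto.mul_const
    have h4 : Tendsto (fun N : ℕ => 2 * N + 1) atTop atTop :=
      tendsto_atTop_mono (fun N => (by omega : N ≤ 2 * N + 1)) tendsto_id
    exact (tendsto_inv_atTop_nhds_zero_nat (𝕜 := ℂ)).comp h4
  have h3 := (hr.mul (h1'.add h2')).sub h0
  rw [zero_mul, sub_zero] at h3
  have e : (1 : ℂ) / 2 * (L + M) = (L + M) / 2 := by ring
  rw [e] at h3
  refine h3.congr fun N => ?_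
  have hN : ((N + 1 : ℕ) : ℂ) ≠ 0 := by exact_mod_cast Nat.succ_ne_zero N
  simp only [Function.comp_apply, av]
  rw [hsum N]
  field_simp

end Pool.Agent.H71.WW
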