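import Pool.Agent.H71.WW.Spec

set_option autoImplicit false

/-!
# The kernel of resonances of degree one, and the polynomial theorem of Wiener and Wintner
-/

namespace Pool.Agent.H71.WW

open MeasureTheory Filter Topology ProbabilityTheory ComplexConjugate
open scoped ENNReal ComplexOrder

universe u

noncomputable section

/-- the coefficients -/
def cf (γ : ℕ → ℂ) (n : ℤ) : ℂ :=
  (if 0 ≤ n then conj (γ n.natAbs) else γ n.natAbs) + (if n = 0 then 1 - conj (γ 0) else 0)

theorem cf_zero (γ : ℕ → ℂ) : cf γ 0 = 1 := by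
  simp [cf]

theorem cf_neg (γ : ℕ → ℂ) {n : ℕ} (hn : 0 < n) : cf γ (-(n : ℤ)) = γ n := by
  unfold cf
  rw [if_neg (by omega), if_neg (by omega), add_zero]
  simp

/-- correlations of a sequence -/
def IsCorr (a : ℕ → ℂ) (γ : ℕ → ℂ) : Prop :=
  ∀ h, Tendsto (av1 (fun n => a (n + h) * conj (a n))) atTop (𝓝 (γ h))

theorem corr_zero {a γ : ℕ → ℂ} (ha : ∀ n, ‖a n‖ ≤ 1) (h : IsCorr a γ) :
    conj (γ 0) = γ 0 ∧ 0 ≤ 1 - γ 0 ∧ ‖γ 0‖ ≤ 1 := by
  have h0 := h 0
  have e : ∀ n, a (n + 0) * conj (a n) = ((‖a n‖ ^ 2 : ℝ) : ℂ) := fun n => by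
    rw [add_zero, Complex.mul_conj, Complex.normSq_eq_norm_sq]
  simp_rw [e] at h0
  have h1 : 0 ≤ γ 0 := nonneg_of_av (fun n => by positivity) h0
  have h2 : Tendsto (av1 (fun n => ((1 - ‖a n‖ ^ 2 : ℝ) : ℂ))) atTop (𝓝 (1 - γ 0)) := by
    have h3 : Tendsto (av1 (fun _ => (1 : ℂ))) atTop (𝓝 1) := by
      refine tendsto_const_nhds.congr' ?_
      filter_upwards [eventually_gt_atTop 0] with N hN
      have : (N : ℂ) ≠ 0 := by exact_mod_cast hN.ne'
      simp [av1, this]
    refine (h3.sub h0).congr fun N => ?_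
    rw [← av1_sub]
    congr 1
    funext n
    push_cast
    ring
  have h4 : 0 ≤ 1 - γ 0 := nonneg_of_av (fun n => by
    have := pow_le_one₀ (norm_nonneg (a n)) (ha n) (n := 2)
    linarith) h2
  refine ⟨?_, h4, ?_⟩
  · rw [Complex.conj_eq_iff_im]
    exact (Complex.nonneg_iff.1 h1).2.symm
  · refine le_of_tendsto h0.norm (Eventually.of_forall fun N => norm_av1_le (fun n => ?_) N
      zero_le_one)
    rw [Complex.norm_real, Real.norm_of_nonneg (by positivity)]
    exact pow_le_one₀ (norm_nonneg (a n)) (ha n)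

theorem cf_pos {a γ : ℕ → ℂ} (ha : ∀ n, ‖a n‖ ≤ 1) (h : IsCorr a γ) (N : ℕ) (b : ℕ → ℂ) :
    0 ≤ ∑ j ∈ Finset.range N, ∑ k ∈ Finset.range N, star (b k) * b j * cf γ (j - k) := by
  obtain ⟨h0, h1, -⟩ := corr_zero ha h
  have h2 := pos_def (fun k l => corr_all ha h k l) N b
  have h3 : ∀ j k : ℕ, cf γ (j - k) = (if j ≤ k then γ (k - j) else conj (γ (j - k))) +
      (if k = j then 1 - γ 0 else 0) := by
    intro j k
    unfold cf
    rw [h0]
    have e2 : ((j : ℤ) - k = 0) ↔ k = j := by omega
    simp only [e2]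
    congr 1
    rcases lt_trichotomy j k with hjk | rfl | hjk
    · rw [if_neg (by omega), if_pos hjk.le]
      congr 1
      omega
    · simp [h0]
    · rw [if_pos (by omega), if_neg (by omega)]
      congr 2
      omega
  have h4 : ∑ j ∈ Finset.range N, ∑ k ∈ Finset.range N, star (b k) * b j * cf γ (j - k) =
      ∑ j ∈ Finset.range N, ∑ k ∈ Finset.range N, star (b k) * b j *
        (if j ≤ k then γ (k - j) else conj (γ (j - k))) +
      ∑ j ∈ Finset.range N, star (b j) * b j * (1 - γ 0) := by
    rw [← Finset.sum_add_distrib]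
    refine Finset.sum_congr rfl fun j hj => ?_
    simp_rw [h3, mul_add, Finset.sum_add_distrib]
    congr 1
    simp only [mul_ite, mul_zero]
    rw [Finset.sum_ite_eq' (Finset.range N) j, if_pos hj]
  rw [h4]
  refine add_nonneg h2 (Finset.sum_nonneg fun j _ => mul_nonneg ?_ h1)
  rw [mul_comm]
  exact mul_star_self_nonneg _

/-- vanishing of the averages at a point which is not an atom -/
theorem cz_of_atom {a γ : ℕ → ℂ} (ha : ∀ n, ‖a n‖ ≤ 1) (h : IsCorr a γ) {σ : Measure TC}
    [IsProbabilityMeasure σ] (hσ : ∀ n : ℤ, ∫ t, fourier n t ∂σ = cf γ n) {α : ℝ}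
    (hα : σ {(α : TC)} = 0) {p : ℕ → Circle} (hp : p ∈ TP 1 (ex α)) :
    cz (fun n => (p n : ℂ) * a n) := by
  obtain ⟨h0, h1, hle⟩ := corr_zero ha h
  set b : ℕ → ℂ := fun n => (p n : ℂ) * a n with hb
  have hbb : ∀ n, ‖b n‖ ≤ 1 := fun n => by
    rw [hb]
    simp only
    rw [norm_mul, Circle.norm_coe, one_mul]
    exact ha n
  -- correlations of `b`
  have hcor : ∀ r, Tendsto (av1 (fun n => b (n + r) * conj (b n))) atTop
      (𝓝 ((ex α : ℂ) ^ r * γ r)) := by
    intro r
    refine ((h r).const_mul ((ex α : ℂ) ^ r)).congr fun N => ?_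
    rw [← av1_mul]
    congr 1
    funext n
    have h2 : sft r p * p⁻¹ = ct (ex α ^ r) := TP_dh hp r
    have h3 : p (n + r) * (p n)⁻¹ = ex α ^ r := congrFun h2 n
    have h4 : ((p (n + r) : Circle) : ℂ) * conj ((p n : Circle) : ℂ) = (ex α : ℂ) ^ r := by
      rw [← Circle.coe_inv_eq_conj, ← Circle.coe_mul, h3, Circle.coe_pow]
    rw [hb]
    simp only
    rw [map_mul, ← h4]
    ring
  have hall := corr_all hbb hcor
  -- the unimodular function
  set w : TC → ℂ := fun t => (ex α : ℂ) * fourier (-1) t with hw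
  have hw1 : ∀ t, ‖w t‖ = 1 := fun t => by
    rw [hw]
    simp only
    rw [norm_mul, Circle.norm_coe, one_mul, fourier_apply, Circle.norm_coe]
  have hwc : Continuous w := continuous_const.mul (fourier (-1)).continuous
  have hwp : ∀ (t : TC) (n : ℕ), w t ^ n = (ex α : ℂ) ^ n * fourier (-(n : ℤ)) t := by
    intro t n
    rw [hw]
    simp only
    rw [mul_pow]
    congr 1
    induction n with
    | zero => simp
    | succ n ih =>
      rw [pow_succ, ih, ← fourier_add]
      congr 2
      push_cast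
      ring
  have hwi : ∀ n : ℕ, 0 < n → ∫ t, w t ^ n ∂σ = (ex α : ℂ) ^ n * γ n := by
    intro n hn
    simp_rw [hwp]
    rw [integral_const_mul, hσ, cf_neg γ hn]
  have hint : ∀ f : C(TC, ℂ), Integrable f σ := fun f => integrable_cont σ f
  have hΓ : ∀ k l : ℕ, (if l ≤ k then (ex α : ℂ) ^ (k - l) * γ (k - l)
      else conj ((ex α : ℂ) ^ (l - k) * γ (l - k))) =
      ∫ t, w t ^ k * conj (w t ^ l) ∂σ - (if k = l then 1 - γ 0 else 0) := by
    intro k l
    have hone : ∀ t, ∀ n : ℕ, w t ^ n * conj (w t ^ n) = 1 := fun t n => by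
      rw [Complex.mul_conj, Complex.normSq_eq_norm_sq, norm_pow, hw1]
      simp
    rcases lt_trichotomy l k with hlk | rfl | hkl
    · rw [if_pos hlk.le, if_neg (by omega), sub_zero, ← hwi _ (by omega)]
      refine integral_congr_ae (Eventually.of_forall fun t => ?_)
      simp only
      obtain ⟨r, rfl⟩ : ∃ r, k = l + r := ⟨k - l, by omega⟩
      rw [show l + r - l = r by omega, pow_add, mul_assoc, mul_comm (w t ^ r), ← mul_assoc,
        hone, one_mul]
    · rw [if_pos le_rfl, if_pos rfl]
      simp_rw [hone]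
      simp
    · rw [if_neg (by omega), if_neg (by omega), sub_zero, ← hwi _ (by omega), ← integral_conj]
      refine integral_congr_ae (Eventually.of_forall fun t => ?_)
      simp only
      obtain ⟨r, rfl⟩ : ∃ r, l = k + r := ⟨l - k, by omega⟩
      rw [show k + r - k = r by omega, pow_add, map_mul, ← mul_assoc, hone, one_mul]
  -- the mean square
  have hsum : ∀ K : ℕ, (K : ℂ)⁻¹ ^ 2 * ∑ k ∈ Finset.range K, ∑ l ∈ Finset.range K,
      (if l ≤ k then (ex α : ℂ) ^ (k - l) * γ (k - l)
      else conj ((ex α : ℂ) ^ (l - k) * γ (l - k))) =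
      ∫ t, ((‖(K : ℂ)⁻¹ * ∑ k ∈ Finset.range K, w t ^ k‖ ^ 2 : ℝ) : ℂ) ∂σ -
      (K : ℂ)⁻¹ ^ 2 * (K * (1 - γ 0)) := by
    intro K
    have e1 : ∑ k ∈ Finset.range K, ∑ l ∈ Finset.range K,
        (if l ≤ k then (ex α : ℂ) ^ (k - l) * γ (k - l)
        else conj ((ex α : ℂ) ^ (l - k) * γ (l - k))) =
        ∑ k ∈ Finset.range K, ∑ l ∈ Finset.range K, ∫ t, w t ^ k * conj (w t ^ l) ∂σ -
        K * (1 - γ 0) := by
      simp_rw [hΓ, Finset.sum_sub_distrib]
      congr 1
      have : ∀ k ∈ Finset.range K, ∑ l ∈ Finset.range K, (if k = l then 1 - γ 0 else 0) =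
          1 - γ 0 := by
        intro k hk
        rw [Finset.sum_ite_eq (Finset.range K) k, if_pos hk]
      rw [Finset.sum_congr rfl this, Finset.sum_const, Finset.card_range, nsmul_eq_mul]
    rw [e1, mul_sub]
    congr 1
    have e2 : ∀ k l : ℕ, Integrable (fun t => w t ^ k * conj (w t ^ l)) σ := fun k l =>
      hint ⟨fun t => w t ^ k * conj (w t ^ l), (hwc.pow k).mul
        (Complex.continuous_conj.comp (hwc.pow l))⟩
    have e3 : ∑ k ∈ Finset.range K, ∑ l ∈ Finset.range K, ∫ t, w t ^ k * conj (w t ^ l) ∂σ =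
        ∫ t, ∑ k ∈ Finset.range K, ∑ l ∈ Finset.range K, w t ^ k * conj (w t ^ l) ∂σ := by
      rw [integral_finsetSum _ fun k _ => integrable_finsetSum _ fun l _ => e2 k l]
      refine Finset.sum_congr rfl fun k _ => ?_
      rw [integral_finsetSum _ fun l _ => e2 k l]
    rw [e3, ← integral_const_mul]
    refine integral_congr_ae (Eventually.of_forall fun t => ?_)
    simp only
    rw [← Complex.normSq_eq_norm_sq, ← Complex.mul_conj, map_mul, map_inv₀,
      Complex.conj_natCast, map_sum, mul_mul_mul_comm, Finset.sum_mul_sum, sq]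
  -- the limit
  have hlim : Tendsto (fun K : ℕ => (K : ℂ)⁻¹ ^ 2 * ∑ k ∈ Finset.range K,
      ∑ l ∈ Finset.range K, (if l ≤ k then (ex α : ℂ) ^ (k - l) * γ (k - l)
      else conj ((ex α : ℂ) ^ (l - k) * γ (l - k)))) atTop (𝓝 0) := by
    have h5 : Tendsto (fun K : ℕ => ∫ t, ((‖(K : ℂ)⁻¹ * ∑ k ∈ Finset.range K, w t ^ k‖ ^ 2 : ℝ)
        : ℂ) ∂σ) atTop (𝓝 (∫ _, (0 : ℂ) ∂σ)) := by
      refine tendsto_integral_of_dominated_convergence (fun _ => 1) (fun K => ?_)
        (integrable_const _) (fun K => ?_) ?_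
      · refine Continuous.aestronglyMeasurable ?_
        fun_prop
      · refine Eventually.of_forall fun t => ?_
        rw [Complex.norm_real, Real.norm_of_nonneg (by positivity)]
        refine pow_le_one₀ (norm_nonneg _) ?_
        have := norm_av1_le (u := fun k => w t ^ k) (C := 1) (fun k => by
          rw [norm_pow, hw1, one_pow]) K zero_le_one
        exact this
      · have h6 : ∀ᵐ t ∂σ, t ≠ (α : TC) := by
          rw [ae_iff]
          simpa using hα
        filter_upwards [h6] with t ht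
        have h7 : w t ≠ 1 := by
          intro hcon
          apply ht
          apply fourier_one_inj
          rw [fourier_one_coe]
          have h8 : (ex α : ℂ) * fourier (-1) t = 1 := hcon
          have h9 : (fourier (-1) t : ℂ) * fourier 1 t = 1 := by
            rw [← fourier_add]
            simp
          calc (fourier 1 t : ℂ) = ((ex α : ℂ) * fourier (-1) t) * fourier 1 t := by
                rw [h8, one_mul]
            _ = ex α := by rw [mul_assoc, h9, mul_one]
        have h10 := (geom_zero (hw1 t) h7).norm.pow 2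
        have h11 := (Complex.continuous_ofReal.tendsto _).comp h10
        have e0 : ((‖(0 : ℂ)‖ ^ 2 : ℝ) : ℂ) = 0 := by simp
        rw [e0] at h11
        exact h11
    have h12 : Tendsto (fun K : ℕ => (K : ℂ)⁻¹ ^ 2 * (K * (1 - γ 0))) atTop (𝓝 0) := by
      have h13 : Tendsto (fun K : ℕ => (K : ℂ)⁻¹ * (1 - γ 0)) atTop (𝓝 (0 * (1 - γ 0))) :=
        (tendsto_inv_atTop_nhds_zero_nat (𝕜 := ℂ)).mul_const _
      rw [zero_mul] at h13
      refine h13.congr' ?_
      filter_upwards [eventually_gt_atTop 0] with K hK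
      have : (K : ℂ) ≠ 0 := by exact_mod_cast hK.ne'
      field_simp
    have h14 := h5.sub h12
    simp only [integral_zero, sub_zero] at h14
    exact h14.congr fun K => (hsum K).symm
  refine vdc hbb hall fun ε hε => ?_
  obtain ⟨K₀, hK₀⟩ := Metric.tendsto_atTop.1 hlim ε hε
  refine ⟨max K₀ 1, le_max_right _ _, ?_⟩
  have := hK₀ (max K₀ 1) (le_max_left _ _)
  rw [dist_zero_right] at this
  exact this.le

theorem KK_one : KK.{u} 1 := by
  classical
  intro X _ μ _ T hT F hF hb
  have hfm : ∀ h : ℕ, Measurable fun x => F (T^[h] x) * conj (F x) := fun h =>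
    (hF.comp (hT.measurable.iterate _)).mul (Complex.continuous_conj.measurable.comp hF)
  have hfb : ∀ (h : ℕ) x, ‖F (T^[h] x) * conj (F x)‖ ≤ 1 := fun h x => by
    rw [norm_mul, RCLike.norm_conj]
    exact mul_le_one₀ (hb _) (norm_nonneg _) (hb _)
  have hlim : ∀ h : ℕ, ∃ γ : X → ℂ, Measurable γ ∧ ∀ᵐ x ∂μ,
      Tendsto (fun N => av1 (fun n => F (T^[n + h] x) * conj (F (T^[n] x))) N) atTop
        (𝓝 (γ x)) := by
    intro h
    refine measurable_limit_of_tendsto_metrizable_ae (fun N => ?_) ?_
    · unfold av1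
      refine ((Finset.measurable_fun_sum _ fun n _ => ?_).const_mul _).aemeasurable
      exact (hF.comp (hT.measurable.iterate _)).mul
        (Complex.continuous_conj.measurable.comp (hF.comp (hT.measurable.iterate _)))
    · filter_upwards [birk hT (hfm h) (hfb h)] with x hx
      obtain ⟨L, hL⟩ := hx
      refine ⟨L, hL.congr fun N => ?_⟩
      congr 1
      funext n
      rw [← Function.iterate_add_apply, add_comm h n]
  choose γ hγm hγ using hlim
  -- a measurable set of full measure where everything converges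
  set B : Set X := toMeasurable μ {x | ¬ ∀ h, Tendsto (fun N =>
    av1 (fun n => F (T^[n + h] x) * conj (F (T^[n] x))) N) atTop (𝓝 (γ h x))} with hB
  have hB0 : μ B = 0 := by
    rw [hB, measure_toMeasurable]
    exact ae_all_iff.2 hγ
  have hBm : MeasurableSet B := measurableSet_toMeasurable _ _
  have hBa : ∀ᵐ x ∂μ, x ∉ B := measure_eq_zero_iff_ae_notMem.1 hB0
  have hgood : ∀ x, x ∉ B → IsCorr (fun n => F (T^[n] x)) (fun h => γ h x) := by
    intro x hx h
    by_contra hcon
    exact hx (subset_toMeasurable _ _ fun hall => hcon (hall h))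
  set c : X → ℤ → ℂ := fun x n => if x ∈ B then (if n = 0 then 1 else 0)
    else cf (fun h => γ h x) n with hc
  have hc0 : ∀ x, c x 0 = 1 := by
    intro x
    rw [hc]
    simp only [if_true]
    split_ifs
    · rfl
    · exact cf_zero _
  have hcp : ∀ x, ∀ N : ℕ, ∀ b : ℕ → ℂ,
      0 ≤ ∑ j ∈ Finset.range N, ∑ k ∈ Finset.range N, star (b k) * b j * c x (j - k) := by
    intro x N b
    by_cases hx : x ∈ B
    · have e : ∀ j ∈ Finset.range N, ∑ k ∈ Finset.range N, star (b k) * b j * c x (j - k) =
          star (b j) * b j := by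
        intro j hj
        rw [hc]
        simp only [if_pos hx]
        have e2 : ∀ k : ℕ, star (b k) * b j * (if (j : ℤ) - k = 0 then (1 : ℂ) else 0) =
            if j = k then star (b k) * b j else 0 := by
          intro k
          by_cases hk : j = k
          · subst hk
            simp
          · rw [if_neg (by omega), if_neg hk, mul_zero]
        simp_rw [e2]
        rw [Finset.sum_ite_eq (Finset.range N) j, if_pos hj]
      rw [Finset.sum_congr rfl e]
      refine Finset.sum_nonneg fun j _ => ?_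
      rw [mul_comm]
      exact mul_star_self_nonneg _
    · rw [hc]
      simp only [if_neg hx]
      exact cf_pos (fun n => hb _) (hgood x hx) N b
  choose σ hσp hσ using fun x => herglotz (hc0 x) (hcp x)
  have hσm : Measurable σ := by
    refine meas_of_fourier hσp fun n => ?_
    simp_rw [hσ]
    rw [hc]
    refine Measurable.ite hBm measurable_const ?_
    unfold cf
    refine Measurable.add ?_ ?_
    · split_ifs
      · exact Complex.continuous_conj.measurable.comp (hγm _)
      · exact hγm _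
    · split_ifs
      · exact measurable_const.sub (Complex.continuous_conj.measurable.comp (hγm _))
      · exact measurable_const
  refine ⟨fun x => (σ x).map sec, ?_, ?_, ?_, ?_⟩
  · exact (Measure.measurable_map _ sec_meas).comp hσm
  · intro x
    have := hσp x
    exact Measure.isProbabilityMeasure_map sec_meas.aemeasurable
  · have hTB : ∀ᵐ x ∂μ, T x ∉ B := hT.quasiMeasurePreserving.ae hBa
    filter_upwards [hBa, hTB] with x hx hTx
    have h1 : ∀ h, γ h (T x) = γ h x := by
      intro h
      have h2 := hgood _ hTx h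
      have h3 := av1_shift (u := fun n => F (T^[n + h] x) * conj (F (T^[n] x))) (fun n => by
        rw [norm_mul, RCLike.norm_conj]
        exact mul_le_one₀ (hb _) (norm_nonneg _) (hb _)) 1 (hgood _ hx h)
      refine tendsto_nhds_unique h2 (h3.congr fun N => ?_)
      congr 1
      funext n
      rw [show n + 1 + h = (n + h) + 1 by ring]
      rfl
    have h4 : σ (T x) = σ x := by
      have := hσp x
      have := hσp (T x)
      refine uniq_fourier fun n => ?_
      rw [hσ, hσ, hc]
      simp only [if_neg hx, if_neg hTx]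
      congr 1
      funext h
      exact h1 h
    simp only [h4]
  · filter_upwards [hBa] with x hx α h0 h1 hα p hp
    have := hσp x
    have h2 : σ x {(α : TC)} = 0 := by
      rw [Measure.map_apply sec_meas (measurableSet_singleton _)] at hα
      refine measure_mono_null ?_ hα
      intro t ht
      rw [Set.mem_singleton_iff] at ht
      subst ht
      exact sec_coe h0 h1
    refine cz_of_atom (fun n => hb _) (hgood x hx) (σ := σ x) (fun n => ?_) h2 hp
    rw [hσ, hc]
    simp only [if_neg hx]

theorem KK_all : ∀ D, KK.{u} (D + 1)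
  | 0 => KK_one
  | D + 1 => KK_succ (KK_all D)

theorem W_all : ∀ D, W.{u} D
  | 0 => W_zero
  | 1 => W_one
  | D + 2 => W_succ (W_all (D + 1)) (KK_all D)

/-- **The polynomial theorem of Wiener and Wintner** for arbitrary measure preserving maps: for
almost every `x` the averages with all polynomial phases converge. -/
theorem wiener_wintner {X : Type u} [MeasurableSpace X] {μ : Measure X} [IsFiniteMeasure μ]
    {T : X → X} (hT : MeasurePreserving T μ μ) {F : X → ℂ} (hF : Measurable F) {C : ℝ}
    (hb : ∀ x, ‖F x‖ ≤ C) :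
    ∀ᵐ x ∂μ, ∀ D : ℕ, ∀ p ∈ PP D, cv (fun n => (p n : ℂ) * F (T^[n] x)) := by
  have hC : ∀ x, ‖F x‖ ≤ |C| + 1 := fun x => (hb x).trans ((le_abs_self C).trans (by linarith))
  have hC0 : (0 : ℝ) < |C| + 1 := by positivity
  have h1 : ∀ D : ℕ, ∀ᵐ x ∂μ, ∀ p ∈ PP D,
      cv (fun n => (p n : ℂ) * ((((|C| + 1)⁻¹ : ℝ) : ℂ) * F (T^[n] x))) := fun D =>
    W_all D X μ T hT (fun x => (((|C| + 1)⁻¹ : ℝ) : ℂ) * F x) (hF.const_mul _) (fun x => by
      rw [norm_mul, Complex.norm_real, Real.norm_of_nonneg (by positivity), inv_mul_le_iff₀ hC0,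
        mul_one]
      exact hC x)
  filter_upwards [ae_all_iff.2 h1] with x hx D p hp
  have h2 := cv_const_mul ((|C| + 1 : ℝ) : ℂ) (hx D p hp)
  refine Eq.mp (congrArg cv (funext fun n => ?_)) h2
  have : ((|C| + 1 : ℝ) : ℂ) ≠ 0 := by exact_mod_cast hC0.ne'
  push_cast at this ⊢
  field_simp

end

end Pool.Agent.H71.WW
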