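import Mathlib

/-!
# The pointwise ergodic theorem for bounded functions
(copied from the starting file `Pool/Agent/H505RS/BPE.lean`)
-/

set_option autoImplicit false

namespace Pool.Agent.H71.WW

namespace BPE

open Set Filter Topology MeasureTheory

variable {B : Type*} [MeasurableSpace B]

/-- maximal partial sums -/
noncomputable def Mx (T : B → B) (φ : B → ℝ) : ℕ → B → ℝ
  | 0, _ => 0
  | n + 1, x => max 0 (φ x + Mx T φ n (T x))

omit [MeasurableSpace B] in
lemma Mx_nonneg (T : B → B) (φ : B → ℝ) (n : ℕ) (x : B) : 0 ≤ Mx T φ n x := by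
  cases n with
  | zero => simp [Mx]
  | succ n => simp [Mx]

lemma Mx_meas {T : B → B} (hT : Measurable T) {φ : B → ℝ} (hφ : Measurable φ) (n : ℕ) :
    Measurable (Mx T φ n) := by
  induction n with
  | zero => simpa [Mx] using (measurable_const : Measurable fun _ : B => (0 : ℝ))
  | succ n ih =>
    have : Mx T φ (n + 1) = fun x => max 0 (φ x + Mx T φ n (T x)) := rfl
    rw [this]
    exact measurable_const.max (hφ.add (ih.comp hT))

omit [MeasurableSpace B] in
lemma Mx_le {T : B → B} {φ : B → ℝ} {C : ℝ} (hb : ∀ x, |φ x| ≤ C) (n : ℕ) (x : B) :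
    Mx T φ n x ≤ n * C := by
  induction n generalizing x with
  | zero => simp [Mx]
  | succ n ih =>
    have hC : 0 ≤ C := (abs_nonneg _).trans (hb x)
    have h1 := ih (T x)
    have h2 := (le_abs_self _).trans (hb x)
    simp only [Mx]
    push_cast
    refine max_le (by positivity) ?_
    linarith

omit [MeasurableSpace B] in
lemma Mx_mono (T : B → B) (φ : B → ℝ) (n : ℕ) (x : B) : Mx T φ n x ≤ Mx T φ (n + 1) x := by
  induction n generalizing x with
  | zero => exact Mx_nonneg T φ 1 x
  | succ n ih =>
    have h1 := ih (T x)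
    show max 0 (φ x + Mx T φ n (T x)) ≤ max 0 (φ x + Mx T φ (n + 1) (T x))
    exact max_le_max le_rfl (by linarith)

omit [MeasurableSpace B] in
lemma Mx_sum (T : B → B) (φ : B → ℝ) (n : ℕ) (x : B) :
    ∑ k ∈ Finset.range n, φ (T^[k] x) ≤ Mx T φ n x := by
  induction n generalizing x with
  | zero => simp [Mx]
  | succ n ih =>
    rw [Finset.sum_range_succ']
    have h1 := ih (T x)
    simp only [Function.iterate_succ_apply, Function.iterate_zero, id_eq]
    show _ ≤ max 0 (φ x + Mx T φ n (T x))
    refine le_max_of_le_right ?_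
    linarith

/-- the set where the maximal sums are unbounded -/
def Un (T : B → B) (φ : B → ℝ) : Set B := {x | ∀ K : ℕ, ∃ n, (K : ℝ) < Mx T φ n x}

lemma Un_meas {T : B → B} (hT : Measurable T) {φ : B → ℝ} (hφ : Measurable φ) :
    MeasurableSet (Un T φ) := by
  have : Un T φ = ⋂ K : ℕ, ⋃ n : ℕ, {x | (K : ℝ) < Mx T φ n x} := by
    ext x; simp [Un]
  rw [this]
  refine MeasurableSet.iInter fun K => MeasurableSet.iUnion fun n => ?_
  exact measurableSet_lt measurable_const (Mx_meas hT hφ n)

omit [MeasurableSpace B] in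
lemma Un_inv (T : B → B) {φ : B → ℝ} {C : ℝ} (hb : ∀ x, |φ x| ≤ C) :
    T ⁻¹' (Un T φ) = Un T φ := by
  ext x
  have hC : 0 ≤ C := (abs_nonneg _).trans (hb x)
  obtain ⟨c, hc⟩ := exists_nat_ge C
  have h1 := abs_le.mp (hb x)
  constructor
  · intro hx K
    obtain ⟨n, hn⟩ := hx (K + c)
    refine ⟨n + 1, ?_⟩
    show _ < max 0 (φ x + Mx T φ n (T x))
    refine lt_max_of_lt_right ?_
    push_cast at hn
    linarith
  · intro hx K
    obtain ⟨n, hn⟩ := hx (K + c)
    push_cast at hn
    cases n with
    | zero =>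
      exfalso
      simp only [Mx] at hn
      have : (0 : ℝ) ≤ K := Nat.cast_nonneg K
      linarith
    | succ n =>
      refine ⟨n, ?_⟩
      have h2 : (K : ℝ) + c < max 0 (φ x + Mx T φ n (T x)) := hn
      rcases lt_max_iff.mp h2 with h3 | h3
      · exfalso
        have : (0 : ℝ) ≤ K := Nat.cast_nonneg K
        linarith
      · linarith

lemma Un_int {m : Measure B} [IsProbabilityMeasure m]
    {T : B → B} (hTm : MeasurePreserving T m m) (φ : B → ℝ) (hφ : Measurable φ) (C : ℝ)
    (hb : ∀ x, |φ x| ≤ C) : 0 ≤ ∫ x in Un T φ, φ x ∂m := by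
  have hAm : MeasurableSet (Un T φ) := Un_meas hTm.measurable hφ
  have hinv := Un_inv T hb
  have hMint : ∀ n, Integrable (Mx T φ n) m := by
    intro n
    refine Integrable.mono' (integrable_const (n * C))
      (Mx_meas hTm.measurable hφ n).aestronglyMeasurable ?_
    filter_upwards with x
    rw [Real.norm_eq_abs, abs_of_nonneg (Mx_nonneg T φ n x)]
    exact Mx_le hb n x
  set F : ℕ → B → ℝ := fun n x => max (- Mx T φ n (T x)) (φ x) with hF
  have hFeq : ∀ n x, F n x = Mx T φ (n + 1) x - Mx T φ n (T x) := by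
    intro n x
    simp only [hF, Mx]
    rw [← max_sub_sub_right]
    congr 1 <;> ring
  have hFint : ∀ n, 0 ≤ ∫ x in Un T φ, F n x ∂m := by
    intro n
    have h2 : ∫ x in Un T φ, Mx T φ n (T x) ∂m = ∫ x in Un T φ, Mx T φ n x ∂m := by
      have h3 := integral_map (μ := m) hTm.measurable.aemeasurable
        (f := (Un T φ).indicator (Mx T φ n))
        ((Mx_meas hTm.measurable hφ n).indicator hAm).aestronglyMeasurable
      rw [hTm.map_eq] at h3
      rw [← integral_indicator hAm, ← integral_indicator hAm, h3]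
      congr 1
      funext x
      by_cases hx : x ∈ Un T φ
      · have hx' : T x ∈ Un T φ := by
          have : x ∈ T ⁻¹' (Un T φ) := by rw [hinv]; exact hx
          exact this
        rw [indicator_of_mem hx, indicator_of_mem hx']
      · have hx' : T x ∉ Un T φ := by
          intro h
          apply hx
          have : x ∈ T ⁻¹' (Un T φ) := h
          rw [hinv] at this
          exact this
        rw [indicator_of_notMem hx, indicator_of_notMem hx']
    have h3 : Integrable (fun x => Mx T φ n (T x)) m :=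
      hTm.integrable_comp_of_integrable (hMint n)
    simp only [hFeq]
    rw [integral_sub (hMint (n + 1)).integrableOn h3.integrableOn, h2,
      ← integral_sub (hMint (n + 1)).integrableOn (hMint n).integrableOn]
    refine integral_nonneg fun x => ?_
    have := Mx_mono T φ n x
    simp only [Pi.zero_apply]
    linarith
  have hlim : Tendsto (fun n => ∫ x in Un T φ, F n x ∂m) atTop (𝓝 (∫ x in Un T φ, φ x ∂m)) := by
    refine tendsto_integral_of_dominated_convergence (fun _ => C) ?_ (integrable_const C) ?_ ?_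
    · intro n
      exact (((Mx_meas hTm.measurable hφ n).comp hTm.measurable).neg.max hφ).aestronglyMeasurable
    · intro n
      filter_upwards with x
      have h2 := Mx_nonneg T φ n (T x)
      have h3 := abs_le.mp (hb x)
      rw [Real.norm_eq_abs, abs_le]
      constructor
      · exact h3.1.trans (le_max_right _ _)
      · exact max_le (by linarith [(abs_nonneg _).trans (hb x)]) h3.2
    · filter_upwards [ae_restrict_mem hAm] with x hx
      rw [← hinv] at hx
      obtain ⟨c, hc⟩ := exists_nat_ge C
      obtain ⟨N, hN⟩ := hx c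
      have hmono : Monotone fun n => Mx T φ n (T x) :=
        monotone_nat_of_le_succ fun n => Mx_mono T φ n (T x)
      refine tendsto_const_nhds.congr' ?_
      filter_upwards [eventually_ge_atTop N] with n hn
      have h4 := hmono hn
      simp only at h4
      have h3 := abs_le.mp (hb x)
      simp only [hF]
      rw [max_eq_right]
      linarith
  exact ge_of_tendsto' hlim hFint

/-- upper bound -/
lemma upper {m : Measure B} [IsProbabilityMeasure m]
    {T : B → B} (hT : MeasurePreserving T m m) (f : B → ℝ) (hf : Measurable f) (C : ℝ)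
    (hb : ∀ x, |f x| ≤ C) (g : B → ℝ) (hg : Measurable g) (hgT : ∀ x, g (T x) = g x)
    (hgb : ∀ x, |g x| ≤ C) (hfg : ∀ A, MeasurableSet A → T ⁻¹' A = A →
      ∫ x in A, f x ∂m = ∫ x in A, g x ∂m) (ε : ℝ) (hε : 0 < ε) :
    ∀ᵐ x ∂m, ∀ᶠ n : ℕ in atTop,
      (n : ℝ)⁻¹ * ∑ k ∈ Finset.range n, f (T^[k] x) ≤ g x + ε := by
  have hφm : Measurable fun x => f x - g x - ε / 2 := (hf.sub hg).sub measurable_const
  have hφb : ∀ x, |f x - g x - ε / 2| ≤ C + C + ε / 2 := by
    intro x
    refine (abs_sub _ _).trans ?_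
    rw [abs_of_pos (by positivity : (0 : ℝ) < ε / 2)]
    have := (abs_sub (f x) (g x)).trans (add_le_add (hb x) (hgb x))
    linarith
  have h1 := Un_int hT (fun x => f x - g x - ε / 2) hφm _ hφb
  have hAm := Un_meas hT.measurable hφm
  have hAi := Un_inv T hφb
  have hif : Integrable f m := by
    refine Integrable.mono' (integrable_const C) hf.aestronglyMeasurable ?_
    filter_upwards with x
    exact hb x
  have hig : Integrable g m := by
    refine Integrable.mono' (integrable_const C) hg.aestronglyMeasurable ?_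
    filter_upwards with x
    exact hgb x
  have h2 : ∫ x in Un T (fun x => f x - g x - ε / 2), (f x - g x - ε / 2) ∂m =
      - (m.real (Un T (fun x => f x - g x - ε / 2)) * (ε / 2)) := by
    have hfg' : Integrable (fun x => f x - g x) m := hif.sub hig
    rw [integral_sub hfg'.integrableOn (integrable_const _),
      integral_sub hif.integrableOn hig.integrableOn, hfg _ hAm hAi, sub_self, zero_sub,
      setIntegral_const, smul_eq_mul]
  rw [h2] at h1
  have h3 : m.real (Un T (fun x => f x - g x - ε / 2)) = 0 := by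
    have h4 : 0 ≤ m.real (Un T (fun x => f x - g x - ε / 2)) := measureReal_nonneg
    nlinarith
  have h5 : m (Un T (fun x => f x - g x - ε / 2)) = 0 := by
    rwa [measureReal_eq_zero_iff] at h3
  have h6 : ∀ᵐ x ∂m, x ∉ Un T (fun x => f x - g x - ε / 2) := measure_eq_zero_iff_ae_notMem.1 h5
  filter_upwards [h6] with x hx
  have hx' : ¬ ∀ K : ℕ, ∃ n, (K : ℝ) < Mx T (fun x => f x - g x - ε / 2) n x := hx
  simp only [not_forall, not_exists, not_lt] at hx'
  replace hx := hx'
  obtain ⟨K, hK⟩ := hx
  obtain ⟨N, hN⟩ := exists_nat_gt ((K : ℝ) / (ε / 2))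
  filter_upwards [eventually_ge_atTop (N + 1)] with n hn
  have h3 := (Mx_sum T (fun x => f x - g x - ε / 2) n x).trans (hK n)
  have hgk : ∀ k : ℕ, g (T^[k] x) = g x := by
    intro k
    induction k with
    | zero => rfl
    | succ k ih => rw [Function.iterate_succ_apply', hgT, ih]
  simp only [hgk] at h3
  rw [Finset.sum_sub_distrib, Finset.sum_sub_distrib] at h3
  simp only [Finset.sum_const, Finset.card_range, nsmul_eq_mul] at h3
  have hn0 : (0 : ℝ) < n := by
    have : 0 < n := by omega
    exact_mod_cast this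
  have h4 : (K : ℝ) ≤ n * (ε / 2) := by
    rw [div_lt_iff₀ (by positivity)] at hN
    have : (N : ℝ) ≤ n := by
      have : N ≤ n := by omega
      exact_mod_cast this
    nlinarith
  rw [inv_mul_le_iff₀ hn0]
  nlinarith

/-- the pointwise ergodic theorem for bounded functions -/
theorem birkhoff {m : Measure B} [IsProbabilityMeasure m]
    {T : B → B} (hT : MeasurePreserving T m m) (f : B → ℝ) (hf : Measurable f) (C : ℝ)
    (hb : ∀ x, |f x| ≤ C) :
    ∀ᵐ x ∂m, Tendsto (fun n : ℕ => (n : ℝ)⁻¹ * ∑ k ∈ Finset.range n, f (T^[k] x)) atTop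
      (𝓝 ((m[f | MeasurableSpace.invariants T]) x)) := by
  by_cases hne : Nonempty B
  swap
  · filter_upwards with x
    exact absurd ⟨x⟩ hne
  obtain ⟨x₀⟩ := hne
  have hC : 0 ≤ C := (abs_nonneg _).trans (hb x₀)
  have hle := MeasurableSpace.invariants_le T
  have hif : Integrable f m := by
    refine Integrable.mono' (integrable_const C) hf.aestronglyMeasurable ?_
    filter_upwards with x
    exact hb x
  have hcm : Measurable[MeasurableSpace.invariants T] (m[f | MeasurableSpace.invariants T]) :=
    stronglyMeasurable_condExp.measurable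
  set g : B → ℝ := fun x => max (-C) (min C ((m[f | MeasurableSpace.invariants T]) x)) with hg
  have hgm' : Measurable[MeasurableSpace.invariants T] g := by
    exact Measurable.max measurable_const (Measurable.min measurable_const hcm)
  have hgm : Measurable g := hgm'.mono hle le_rfl
  have hgT : ∀ x, g (T x) = g x := fun x =>
    congrFun (MeasurableSpace.comp_eq_of_measurable_invariants hgm') x
  have hgb : ∀ x, |g x| ≤ C := by
    intro x
    rw [abs_le]
    refine ⟨le_max_left _ _, max_le (by linarith) (min_le_left _ _)⟩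
  have hbd : ∀ᵐ x ∂m, |(m[f | MeasurableSpace.invariants T]) x| ≤ C := by
    exact ae_bdd_abs_condExp_of_ae_bdd_abs (m := MeasurableSpace.invariants T) (μ := m)
      (f := f) (R := C) (Filter.Eventually.of_forall hb)
  have hgeq : ∀ᵐ x ∂m, g x = (m[f | MeasurableSpace.invariants T]) x := by
    filter_upwards [hbd] with x hx
    rw [abs_le] at hx
    simp only [hg]
    rw [min_eq_right hx.2, max_eq_right hx.1]
  have hfg : ∀ A, MeasurableSet A → T ⁻¹' A = A → ∫ x in A, f x ∂m = ∫ x in A, g x ∂m := by
    intro A hA hAi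
    have h1 := setIntegral_condExp hle hif
      (MeasurableSpace.measurableSet_invariants.2 ⟨hA, hAi⟩ :
        MeasurableSet[MeasurableSpace.invariants T] A)
    rw [← h1]
    apply integral_congr_ae
    filter_upwards [ae_restrict_of_ae hgeq] with x hx
    exact hx.symm
  have h1 : ∀ j : ℕ, ∀ᵐ x ∂m, ∀ᶠ n : ℕ in atTop,
      (n : ℝ)⁻¹ * ∑ k ∈ Finset.range n, f (T^[k] x) ≤ g x + 1 / ((j : ℝ) + 1) :=
    fun j => upper hT f hf C hb g hgm hgT hgb hfg _ (by positivity)
  have h2 : ∀ j : ℕ, ∀ᵐ x ∂m, ∀ᶠ n : ℕ in atTop,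
      (n : ℝ)⁻¹ * ∑ k ∈ Finset.range n, (- f (T^[k] x)) ≤ -g x + 1 / ((j : ℝ) + 1) :=
    fun j => upper hT (fun x => - f x) hf.neg C (by simpa using hb) (fun x => -g x) hgm.neg
      (fun x => by rw [hgT]) (by simpa using hgb)
      (fun A hA hAi => by rw [integral_neg, integral_neg, hfg A hA hAi]) _ (by positivity)
  rw [← ae_all_iff] at h1 h2
  filter_upwards [h1, h2, hgeq] with x hx1 hx2 hx3
  rw [← hx3]
  rw [Metric.tendsto_atTop']
  intro ε hε
  obtain ⟨j, hj⟩ := exists_nat_one_div_lt hε
  obtain ⟨N1, hN1⟩ := eventually_atTop.mp (hx1 j)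
  obtain ⟨N2, hN2⟩ := eventually_atTop.mp (hx2 j)
  refine ⟨max N1 N2, fun n hn => ?_⟩
  have h3 := hN1 n (le_trans (le_max_left _ _) hn.le)
  have h4 := hN2 n (le_trans (le_max_right _ _) hn.le)
  rw [Finset.sum_neg_distrib, mul_neg] at h4
  rw [Real.dist_eq, abs_lt]
  constructor <;> linarith

lemma sum_shift (F : ℕ → ℝ) (n : ℕ) :
    ∑ i ∈ Finset.Ioc 0 n, F i = ∑ k ∈ Finset.range n, F (k + 1) := by
  induction n with
  | zero => simp
  | succ n ih => rw [Finset.sum_Ioc_succ_top (Nat.zero_le n), Finset.sum_range_succ, ih]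

end BPE

end Pool.Agent.H71.WW
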