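import Mathlib

set_option autoImplicit false

/-!
# Polynomial phases
-/

namespace Pool.Agent.H71.WW

open Filter Topology

noncomputable section

/-- the difference -/
def df (p : ℕ → Circle) : ℕ → Circle := fun n => p (n + 1) * (p n)⁻¹

/-- the sum -/
def sm (p : ℕ → Circle) : ℕ → Circle := fun n => ∏ i ∈ Finset.range n, p i

/-- the constant sequence -/
def ct (z : Circle) : ℕ → Circle := fun _ => z

theorem df_mul (p q : ℕ → Circle) : df (p * q) = df p * df q := by
  funext n
  simp only [df, Pi.mul_apply, mul_inv]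
  exact mul_mul_mul_comm _ _ _ _

theorem df_one : df 1 = 1 := by
  funext n
  simp [df]

theorem df_inv (p : ℕ → Circle) : df p⁻¹ = (df p)⁻¹ := by
  funext n
  simp only [df, Pi.inv_apply, mul_inv]

theorem df_ct (z : Circle) : df (ct z) = 1 := by
  funext n
  simp [df, ct]

theorem sm_mul (p q : ℕ → Circle) : sm (p * q) = sm p * sm q := by
  funext n
  simp only [sm, Pi.mul_apply, Finset.prod_mul_distrib]

theorem df_sm (p : ℕ → Circle) : df (sm p) = p := by
  funext n
  simp only [df, sm, Finset.prod_range_succ]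
  rw [mul_comm, ← mul_assoc, inv_mul_cancel, one_mul]

theorem df_it_mul (k : ℕ) (p q : ℕ → Circle) : df^[k] (p * q) = df^[k] p * df^[k] q := by
  induction k generalizing p q with
  | zero => rfl
  | succ k ih => rw [Function.iterate_succ_apply, Function.iterate_succ_apply,
      Function.iterate_succ_apply, df_mul, ih]

theorem df_it_one (k : ℕ) : df^[k] 1 = 1 := by
  induction k with
  | zero => rfl
  | succ k ih => rw [Function.iterate_succ_apply, df_one, ih]

theorem df_it_inv (k : ℕ) (p : ℕ → Circle) : df^[k] p⁻¹ = (df^[k] p)⁻¹ := by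
  induction k generalizing p with
  | zero => rfl
  | succ k ih => rw [Function.iterate_succ_apply, Function.iterate_succ_apply, df_inv, ih]

theorem sm_it_mul (k : ℕ) (p q : ℕ → Circle) : sm^[k] (p * q) = sm^[k] p * sm^[k] q := by
  induction k generalizing p q with
  | zero => rfl
  | succ k ih => rw [Function.iterate_succ_apply, Function.iterate_succ_apply,
      Function.iterate_succ_apply, sm_mul, ih]

theorem df_sm_it (k : ℕ) (p : ℕ → Circle) : df^[k] (sm^[k] p) = p := by
  induction k generalizing p with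
  | zero => rfl
  | succ k ih =>
    rw [Function.iterate_succ_apply, Function.iterate_succ_apply', df_sm, ih]

/-- polynomial phases of degree less than `d` -/
def PP (d : ℕ) : Set (ℕ → Circle) := {p | df^[d] p = 1}

theorem PP_zero {p : ℕ → Circle} (h : p ∈ PP 0) : p = 1 := h

theorem PP_succ {d : ℕ} {p : ℕ → Circle} : p ∈ PP (d + 1) ↔ df p ∈ PP d := by
  show df^[d + 1] p = 1 ↔ df^[d] (df p) = 1
  rw [Function.iterate_succ_apply]

theorem PP_one (d : ℕ) : (1 : ℕ → Circle) ∈ PP d := df_it_one d

theorem PP_mul {d : ℕ} {p q : ℕ → Circle} (hp : p ∈ PP d) (hq : q ∈ PP d) : p * q ∈ PP d := by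
  show df^[d] (p * q) = 1
  rw [df_it_mul, show df^[d] p = 1 from hp, show df^[d] q = 1 from hq, one_mul]

theorem PP_inv {d : ℕ} {p : ℕ → Circle} (hp : p ∈ PP d) : p⁻¹ ∈ PP d := by
  show df^[d] p⁻¹ = 1
  rw [df_it_inv, show df^[d] p = 1 from hp, inv_one]

theorem PP_mono_one {d : ℕ} {p : ℕ → Circle} (hp : p ∈ PP d) : p ∈ PP (d + 1) := by
  show df^[d + 1] p = 1
  rw [Function.iterate_succ_apply', show df^[d] p = 1 from hp, df_one]

theorem PP_mono {d e : ℕ} (h : d ≤ e) {p : ℕ → Circle} (hp : p ∈ PP d) : p ∈ PP e := by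
  induction e, h using Nat.le_induction with
  | base => exact hp
  | succ e _ ih => exact PP_mono_one ih

theorem PP_sm_ct (k : ℕ) (z : Circle) : sm^[k] (ct z) ∈ PP (k + 1) := by
  show df^[k + 1] (sm^[k] (ct z)) = 1
  rw [Function.iterate_succ_apply', df_sm_it, df_ct]

/-- the shift -/
def sft (h : ℕ) (p : ℕ → Circle) : ℕ → Circle := fun n => p (n + h)

theorem PP_sft {d : ℕ} {p : ℕ → Circle} (hp : p ∈ PP d) (h : ℕ) : sft h p ∈ PP d := by
  induction h with
  | zero => exact hp
  | succ h ih =>
    have e : sft (h + 1) p = sft h p * df (sft h p) := by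
      funext n
      simp only [sft, df, Pi.mul_apply]
      rw [show n + (h + 1) = n + 1 + h by ring, mul_comm, mul_assoc, inv_mul_cancel, mul_one]
    rw [e]
    refine PP_mul ih ?_
    cases d with
    | zero =>
      have h1 : sft h p = 1 := ih
      rw [h1, df_one]
      exact PP_one 0
    | succ d => exact PP_mono_one (PP_succ.1 ih)

theorem dh_eq (p : ℕ → Circle) (h : ℕ) :
    sft (h + 1) p * p⁻¹ = sft h (df p) * (sft h p * p⁻¹) := by
  funext n
  simp only [sft, df, Pi.mul_apply, Pi.inv_apply]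
  rw [show n + (h + 1) = n + h + 1 by ring]
  group

/-- differences lower the degree -/
theorem PP_dh {d : ℕ} {p : ℕ → Circle} (hp : p ∈ PP (d + 1)) (h : ℕ) :
    sft h p * p⁻¹ ∈ PP d := by
  induction h with
  | zero =>
    have : sft 0 p * p⁻¹ = 1 := by
      funext n
      simp [sft]
    rw [this]
    exact PP_one d
  | succ h ih =>
    rw [dh_eq]
    exact PP_mul (PP_sft (PP_succ.1 hp) h) ih

/-- sequences whose `d`-th difference is the constant `z` -/
def TP (d : ℕ) (z : Circle) : Set (ℕ → Circle) := {p | df^[d] p = ct z}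

theorem TP_PP {d : ℕ} {z : Circle} {p : ℕ → Circle} (h : p ∈ TP d z) : p ∈ PP (d + 1) := by
  show df^[d + 1] p = 1
  rw [Function.iterate_succ_apply', show df^[d] p = ct z from h, df_ct]

theorem const_of_df {p : ℕ → Circle} (h : df p = 1) : p = ct (p 0) := by
  funext n
  induction n with
  | zero => rfl
  | succ n ih =>
    have h1 : df p n = 1 := by rw [h]; rfl
    have h2 : p (n + 1) = p n := by
      have : p (n + 1) * (p n)⁻¹ = 1 := h1
      rwa [mul_inv_eq_one] at this
    rw [h2, ih]
    rfl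

theorem exists_TP {d : ℕ} {p : ℕ → Circle} (h : p ∈ PP (d + 1)) :
    ∃ z, p ∈ TP d z := by
  refine ⟨(df^[d] p) 0, ?_⟩
  have h1 : df (df^[d] p) = 1 := (Function.iterate_succ_apply' df d p).symm.trans h
  exact const_of_df h1

theorem ct_pow (z : Circle) (h : ℕ) : ct (z ^ h) = ct z ^ h := rfl

theorem TP_mul {d : ℕ} {z w : Circle} {p q : ℕ → Circle} (hp : p ∈ TP d z) (hq : q ∈ TP d w) :
    p * q ∈ TP d (z * w) := by
  show df^[d] (p * q) = ct (z * w)
  rw [df_it_mul, show df^[d] p = ct z from hp, show df^[d] q = ct w from hq]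
  rfl

theorem TP_sft {d : ℕ} {z : Circle} {p : ℕ → Circle} (hp : p ∈ TP d z) (h : ℕ) :
    sft h p ∈ TP d z := by
  induction d generalizing p with
  | zero =>
    have h1 : p = ct z := hp
    rw [h1]
    rfl
  | succ d ih =>
    have h1 : df p ∈ TP d z := by
      show df^[d] (df p) = ct z
      rw [← Function.iterate_succ_apply]
      exact hp
    have h2 := ih h1
    show df^[d + 1] (sft h p) = ct z
    rw [Function.iterate_succ_apply]
    have e : df (sft h p) = sft h (df p) := by
      funext n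
      simp only [sft, df]
      rw [show n + 1 + h = n + h + 1 by ring]
    rw [e]
    exact h2

theorem TP_dh {d : ℕ} {z : Circle} {p : ℕ → Circle} (hp : p ∈ TP (d + 1) z) (h : ℕ) :
    sft h p * p⁻¹ ∈ TP d (z ^ h) := by
  induction h with
  | zero =>
    have : sft 0 p * p⁻¹ = 1 := by
      funext n
      simp [sft]
    rw [this]
    show df^[d] 1 = ct (z ^ 0)
    rw [df_it_one]
    rfl
  | succ h ih =>
    rw [dh_eq, pow_succ, mul_comm (z ^ h) z]
    refine TP_mul (TP_sft ?_ h) ih
    show df^[d] (df p) = ct z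
    rw [← Function.iterate_succ_apply]
    exact hp

/-- splitting the top coefficient -/
theorem TP_split {d : ℕ} {z : Circle} {p : ℕ → Circle} (hp : p ∈ TP d z) :
    p * (sm^[d] (ct z))⁻¹ ∈ PP d := by
  show df^[d] (p * (sm^[d] (ct z))⁻¹) = 1
  rw [df_it_mul, df_it_inv, df_sm_it, show df^[d] p = ct z from hp, mul_inv_cancel]

/-- averages -/
def av1 (u : ℕ → ℂ) (N : ℕ) : ℂ := (N : ℂ)⁻¹ * ∑ n ∈ Finset.range N, u n

/-- the averages converge -/
def cv (u : ℕ → ℂ) : Prop := ∃ L : ℂ, Tendsto (av1 u) atTop (𝓝 L)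

/-- the averages tend to zero -/
def cz (u : ℕ → ℂ) : Prop := Tendsto (av1 u) atTop (𝓝 0)

theorem cz_cv {u : ℕ → ℂ} (h : cz u) : cv u := ⟨0, h⟩

end

end Pool.Agent.H71.WW
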