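import Pool.Agent.H71.WW.Skew

set_option autoImplicit false

/-!
# The kernels of resonances, the inductive step
-/

namespace Pool.Agent.H71.WW

open MeasureTheory Filter Topology ProbabilityTheory ComplexConjugate
open scoped ENNReal

universe u

noncomputable section

/-- the roots -/
def rt (k j : ℕ) (β : ℝ) : ℝ := (β + j) / (k + 1)

theorem rt_meas (k j : ℕ) : Measurable (rt k j) := by
  unfold rt
  fun_prop

/-- the weights -/
def wt (k : ℕ) : ℝ≥0∞ := (2 : ℝ≥0∞)⁻¹ ^ (k + 1) * ((k + 1 : ℕ) : ℝ≥0∞)⁻¹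

theorem wt_ne (k : ℕ) : wt k ≠ 0 := by
  unfold wt
  refine mul_ne_zero (pow_ne_zero _ (ENNReal.inv_ne_zero.2 (by norm_num))) ?_
  exact ENNReal.inv_ne_zero.2 (ENNReal.natCast_ne_top _)

theorem wt_sum : ∑' k, wt k * ((k + 1 : ℕ) : ℝ≥0∞) = 1 := by
  have h : ∀ k : ℕ, wt k * ((k + 1 : ℕ) : ℝ≥0∞) = (2 : ℝ≥0∞)⁻¹ ^ (k + 1) := by
    intro k
    unfold wt
    rw [mul_assoc, ENNReal.inv_mul_cancel (by positivity) (ENNReal.natCast_ne_top _), mul_one]
  simp_rw [h]
  rw [ENNReal.tsum_geometric_add_one, ENNReal.one_sub_inv_two, inv_inv,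
    ENNReal.inv_mul_cancel (by norm_num) (by norm_num)]

/-- the mixture -/
def mix {X : Type*} (κ : ℕ → X → Measure ℝ) (x : X) : Measure ℝ :=
  Measure.sum fun k : ℕ => wt k • ∑ j ∈ Finset.range (k + 1), (κ k x).map (rt k j)

theorem mix_apply {X : Type*} (κ : ℕ → X → Measure ℝ) (x : X) {s : Set ℝ}
    (hs : MeasurableSet s) :
    mix κ x s = ∑' k, wt k * ∑ j ∈ Finset.range (k + 1), κ k x (rt k j ⁻¹' s) := by
  unfold mix
  rw [Measure.sum_apply _ hs]
  congr 1
  funext k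
  rw [Measure.smul_apply, Measure.finsetSum_apply, smul_eq_mul]
  congr 1
  exact Finset.sum_congr rfl fun j _ => Measure.map_apply (rt_meas k j) hs

theorem mix_meas {X : Type*} [MeasurableSpace X] {κ : ℕ → X → Measure ℝ}
    (h : ∀ k, Measurable (κ k)) : Measurable (mix κ) := by
  refine Measure.measurable_of_measurable_coe _ fun s hs => ?_
  simp_rw [mix_apply κ _ hs]
  refine Measurable.tsum fun k => ?_
  refine Measurable.const_mul ?_ _
  exact Finset.measurable_fun_sum _ fun j _ =>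
    (Measure.measurable_coe (rt_meas k j hs)).comp (h k)

theorem mix_prob {X : Type*} {κ : ℕ → X → Measure ℝ}
    (h : ∀ k x, IsProbabilityMeasure (κ k x)) (x : X) : IsProbabilityMeasure (mix κ x) := by
  constructor
  rw [mix_apply κ x MeasurableSet.univ]
  have : ∀ k, wt k * ∑ j ∈ Finset.range (k + 1), κ k x (rt k j ⁻¹' Set.univ) =
      wt k * ((k + 1 : ℕ) : ℝ≥0∞) := by
    intro k
    simp only [Set.preimage_univ, measure_univ, Finset.sum_const, Finset.card_range,
      nsmul_eq_mul, mul_one]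
  simp_rw [this]
  exact wt_sum

theorem mix_null {X : Type*} {κ : ℕ → X → Measure ℝ} {x : X} {α : ℝ} (h0 : 0 ≤ α) (h1 : α < 1)
    (h : mix κ x {α} = 0) (k : ℕ) : κ k x {Int.fract ((k + 1) * α)} = 0 := by
  rw [mix_apply κ x (measurableSet_singleton α), ENNReal.tsum_eq_zero] at h
  have h2 := (mul_eq_zero.1 (h k)).resolve_left (wt_ne k)
  rw [Finset.sum_eq_zero_iff] at h2
  have hk : (0 : ℝ) < (k : ℝ) + 1 := by positivity
  have hf0 : 0 ≤ ⌊((k : ℝ) + 1) * α⌋ := Int.floor_nonneg.2 (by positivity)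
  obtain ⟨j, hj⟩ := Int.eq_ofNat_of_zero_le hf0
  have hjk : j < k + 1 := by
    have h3 : (⌊((k : ℝ) + 1) * α⌋ : ℝ) ≤ ((k : ℝ) + 1) * α := Int.floor_le _
    rw [hj] at h3
    have h4 : ((k : ℝ) + 1) * α < (k : ℝ) + 1 := by nlinarith
    have h5 : (j : ℝ) < (k : ℝ) + 1 := by
      have : ((j : ℤ) : ℝ) = (j : ℝ) := by norm_cast
      linarith
    exact_mod_cast h5
  refine measure_mono_null ?_ (h2 j (Finset.mem_range.2 hjk))
  intro β hβ
  rw [Set.mem_singleton_iff] at hβ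
  show rt k j β = α
  unfold rt
  rw [div_eq_iff hk.ne', hβ, Int.fract, hj]
  push_cast
  ring

theorem ex_pow (α : ℝ) (h : ℕ) : ex α ^ h = ex (h * α) := by
  unfold ex
  rw [← Circle.exp_nsmul]
  congr 1
  rw [nsmul_eq_mul]
  ring

theorem ex_fract (α : ℝ) : ex (Int.fract α) = ex α := by
  unfold ex
  rw [Int.fract, mul_sub, Circle.exp_sub]
  have h2 : Circle.exp (2 * Real.pi * (⌊α⌋ : ℝ)) = 1 := by
    rw [Circle.exp_eq_one]
    exact ⟨⌊α⌋, by ring⟩
  rw [h2, div_one]

theorem KK_succ {D : ℕ} (h : KK.{u} D) : KK.{u} (D + 1) := by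
  intro X _ μ _ T hT F hF hb
  have hFm : ∀ k : ℕ, Measurable fun x => F (T^[k + 1] x) * conj (F x) := fun k =>
    (hF.comp (hT.measurable.iterate _)).mul (Complex.continuous_conj.measurable.comp hF)
  have hFb : ∀ (k : ℕ) x, ‖F (T^[k + 1] x) * conj (F x)‖ ≤ 1 := fun k x => by
    rw [norm_mul, RCLike.norm_conj]
    exact mul_le_one₀ (hb _) (norm_nonneg _) (hb _)
  choose κ hκm hκp hκT hκ0 using fun k : ℕ => h X μ T hT _ (hFm k) (hFb k)
  refine ⟨mix κ, mix_meas hκm, mix_prob hκp, ?_, ?_⟩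
  · filter_upwards [ae_all_iff.2 hκT] with x hx
    unfold mix
    congr 1
    funext k
    rw [hx k]
  · filter_upwards [ae_all_iff.2 hκ0] with x hx α h0 h1 hα p hp
    refine vdc_zero (fun n => ?_) fun r hr => ?_
    · rw [norm_mul, Circle.norm_coe, one_mul]
      exact hb _
    obtain ⟨k, rfl⟩ : ∃ k, r = k + 1 := ⟨r - 1, by omega⟩
    have h2 := hx k (Int.fract ((k + 1) * α)) (Int.fract_nonneg _) (Int.fract_lt_one _)
      (mix_null h0 h1 hα k) (sft (k + 1) p * p⁻¹) (by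
        rw [ex_fract]
        have := TP_dh hp (k + 1)
        rw [ex_pow] at this
        push_cast at this
        exact this)
    refine Eq.mp (congrArg cz (funext fun n => ?_)) h2
    simp only [sft, Pi.mul_apply, Pi.inv_apply, Circle.coe_mul, Circle.coe_inv_eq_conj, map_mul]
    rw [← Function.iterate_add_apply, add_comm (k + 1) n]
    ring

end

end Pool.Agent.H71.WW
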