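import Pool.Agent.H71.WW.Van
import Pool.Agent.H71.WW.Birk

set_option autoImplicit false

/-!
# Skew products and the induction for the polynomial theorem of Wiener and Wintner
-/

namespace Pool.Agent.H71.WW

open MeasureTheory Filter Topology ProbabilityTheory

universe u

noncomputable section

instance instMeasCircle : MeasurableSpace Circle := borel Circle

instance instBorelCircle : BorelSpace Circle := ⟨rfl⟩

theorem coe_cont : Continuous fun z : Circle => (z : ℂ) := by fun_prop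

theorem coe_meas : Measurable fun z : Circle => (z : ℂ) := coe_cont.measurable

/-- Birkhoff's theorem for finite measures and complex functions -/
theorem birk {X : Type*} [MeasurableSpace X] {μ : Measure X} [IsFiniteMeasure μ] {T : X → X}
    (hT : MeasurePreserving T μ μ) {F : X → ℂ} (hF : Measurable F) {C : ℝ}
    (hb : ∀ x, ‖F x‖ ≤ C) : ∀ᵐ x ∂μ, cv (fun n => F (T^[n] x)) := by
  rcases eq_or_ne μ 0 with rfl | hμ
  · simp
  have : NeZero μ := ⟨hμ⟩
  have hc0 : (μ Set.univ)⁻¹ ≠ 0 := ENNReal.inv_ne_zero.2 (measure_ne_top _ _)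
  have hT' : MeasurePreserving T ((μ Set.univ)⁻¹ • μ) ((μ Set.univ)⁻¹ • μ) :=
    hT.smul_measure _
  have h1 := BPE.birkhoff hT' (fun x => (F x).re) (Complex.measurable_re.comp hF) C
    (fun x => (Complex.abs_re_le_norm _).trans (hb x))
  have h2 := BPE.birkhoff hT' (fun x => (F x).im) (Complex.measurable_im.comp hF) C
    (fun x => (Complex.abs_im_le_norm _).trans (hb x))
  rw [Measure.ae_ennreal_smul_measure_iff hc0] at h1 h2
  filter_upwards [h1, h2] with x hx hy
  refine ⟨_, (((Complex.continuous_ofReal.tendsto _).comp hx).add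
    (((Complex.continuous_ofReal.tendsto _).comp hy).mul_const Complex.I)).congr fun N => ?_⟩
  simp only [Function.comp_apply, av1]
  push_cast
  rw [mul_assoc, ← mul_add, Finset.sum_mul, ← Finset.sum_add_distrib]
  congr 1
  exact Finset.sum_congr rfl fun n _ => Complex.re_add_im _

/-- the polynomial Wiener-Wintner theorem, phases of degree less than `D` -/
def W (D : ℕ) : Prop := ∀ (X : Type u) [MeasurableSpace X] (μ : Measure X) [IsFiniteMeasure μ]
  (T : X → X), MeasurePreserving T μ μ → ∀ F : X → ℂ, Measurable F → (∀ x, ‖F x‖ ≤ 1) →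
  ∀ᵐ x ∂μ, ∀ p ∈ PP D, cv (fun n => (p n : ℂ) * F (T^[n] x))

/-- the same with a `k` times summed cocycle -/
def Z (k D : ℕ) : Prop := ∀ (X : Type u) [MeasurableSpace X] (μ : Measure X) [IsFiniteMeasure μ]
  (T : X → X), MeasurePreserving T μ μ → ∀ F : X → ℂ, Measurable F → (∀ x, ‖F x‖ ≤ 1) →
  ∀ c : X → Circle, Measurable c →
  ∀ᵐ x ∂μ, ∀ p ∈ PP D,
    cv (fun n => (sm^[k] (fun i => c (T^[i] x)) n : ℂ) * ((p n : ℂ) * F (T^[n] x)))

theorem W_zero : W.{u} 0 := by
  intro X _ μ _ T hT F hF hb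
  filter_upwards [birk hT hF hb] with x hx p hp
  rw [PP_zero hp]
  simpa using hx

theorem cv_const_mul {u : ℕ → ℂ} (c : ℂ) (h : cv u) : cv (fun n => c * u n) := by
  obtain ⟨L, hL⟩ := h
  refine ⟨c * L, (hL.const_mul c).congr fun N => ?_⟩
  rw [av1_mul]

theorem W_one : W.{u} 1 := by
  intro X _ μ _ T hT F hF hb
  filter_upwards [birk hT hF hb] with x hx p hp
  obtain ⟨z, hz⟩ := exists_TP hp
  have e : p = ct z := hz
  have h2 := cv_const_mul (z : ℂ) hx
  rw [e]
  exact h2

theorem Z_zero {D : ℕ} (h : W.{u} D) : Z.{u} 0 D := by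
  intro X _ μ _ T hT F hF hb c hc
  have h1 := h X μ T hT (fun x => (c x : ℂ) * F x)
    ((coe_meas.comp hc).mul hF) (fun x => by
      rw [norm_mul, Circle.norm_coe, one_mul]
      exact hb x)
  filter_upwards [h1] with x hx p hp
  refine Eq.mp (congrArg cv (funext fun n => ?_)) (hx p hp)
  simp only [Function.iterate_zero, id]
  ring

/-- Haar measure of the circle -/
def hc : Measure Circle := Measure.haar

instance : IsFiniteMeasure hc := by unfold hc; infer_instance

instance : NeZero hc := by unfold hc; infer_instance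

theorem map_hc (w : Circle) : Measure.map (fun z => w * z) hc = hc :=
  map_mul_left_eq_self Measure.haar w

/-- the skew product -/
def sk {X : Type*} (T : X → X) (c : X → Circle) : X × Circle → X × Circle :=
  fun q => (T q.1, c q.1 * q.2)

theorem sk_mp {X : Type*} [MeasurableSpace X] {μ : Measure X} [IsFiniteMeasure μ] {T : X → X}
    (hT : MeasurePreserving T μ μ) {c : X → Circle} (hcm : Measurable c) :
    MeasurePreserving (sk T c) (μ.prod hc) (μ.prod hc) := by
  refine MeasurePreserving.skew_product (g := fun a z => c a * z) hT ?_ ?_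
  · exact (hcm.comp measurable_fst).mul measurable_snd
  · exact Eventually.of_forall fun a => map_hc (c a)

theorem sk_it {X : Type*} (T : X → X) (c : X → Circle) (x : X) (z : Circle) (n : ℕ) :
    (sk T c)^[n] (x, z) = (T^[n] x, sm (fun i => c (T^[i] x)) n * z) := by
  induction n with
  | zero => simp [sm]
  | succ n ih =>
    rw [Function.iterate_succ_apply', ih, Function.iterate_succ_apply']
    simp only [sk, sm, Finset.prod_range_succ]
    rw [Prod.mk.injEq]
    refine ⟨rfl, ?_⟩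
    rw [← mul_assoc, mul_comm (c (T^[n] x))]

theorem Z_succ {k D : ℕ} (hk : k + 1 ≤ D) (h : Z.{u} k D) : Z.{u} (k + 1) D := by
  intro X _ μ _ T hT F hF hb c hcm
  have h1 := h (X × Circle) (μ.prod hc) (sk T c) (sk_mp hT hcm) (fun q => F q.1)
    (hF.comp measurable_fst) (fun q => hb q.1) (fun q => q.2) measurable_snd
  filter_upwards [Measure.ae_ae_of_ae_prod h1] with x hx p hp
  obtain ⟨z, hz⟩ := hx.exists
  have hp' : p * (sm^[k] (ct z))⁻¹ ∈ PP D :=
    PP_mul hp (PP_inv (PP_mono hk (PP_sm_ct k z)))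
  refine Eq.mp (congrArg cv (funext fun n => ?_)) (hz _ hp')
  have e1 : (fun i => ((sk T c)^[i] (x, z)).2) = sm (fun i => c (T^[i] x)) * ct z := by
    funext i
    rw [sk_it]
    rfl
  rw [e1, sm_it_mul, sk_it, ← Function.iterate_succ_apply]
  simp only [Pi.mul_apply, Pi.inv_apply, Circle.coe_mul, Circle.coe_inv]
  have hne : ((sm^[k] (ct z) n : Circle) : ℂ) ≠ 0 := Circle.coe_ne_zero _
  field_simp

theorem Z_of_W {D : ℕ} (h : W.{u} D) : ∀ k, k ≤ D → Z.{u} k D
  | 0, _ => Z_zero h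
  | k + 1, hk => Z_succ hk (Z_of_W h k (by omega))

/-- the point of the circle with the angle `2 π α` -/
def ex (α : ℝ) : Circle := Circle.exp (2 * Real.pi * α)

theorem ex_meas : Measurable ex :=
  (Circle.exp.continuous.comp (continuous_const.mul continuous_id)).measurable

theorem ex_surj (z : Circle) : ∃ α : ℝ, 0 ≤ α ∧ α < 1 ∧ ex α = z := by
  obtain ⟨t, ht⟩ := Circle.exp_surjective z
  refine ⟨Int.fract (t / (2 * Real.pi)), Int.fract_nonneg _, Int.fract_lt_one _, ?_⟩
  unfold ex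
  have e : 2 * Real.pi * Int.fract (t / (2 * Real.pi)) =
      t - ⌊t / (2 * Real.pi)⌋ * (2 * Real.pi) := by
    rw [Int.fract]
    field_simp
  rw [e, Circle.exp_sub, ht]
  have h2 : Circle.exp (⌊t / (2 * Real.pi)⌋ * (2 * Real.pi)) = 1 := by
    rw [Circle.exp_eq_one]
    exact ⟨_, rfl⟩
  rw [h2, div_one]

/-- the kernels of resonances -/
def KK (D : ℕ) : Prop := ∀ (X : Type u) [MeasurableSpace X] (μ : Measure X) [IsFiniteMeasure μ]
  (T : X → X), MeasurePreserving T μ μ → ∀ F : X → ℂ, Measurable F → (∀ x, ‖F x‖ ≤ 1) →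
  ∃ κ : X → Measure ℝ, Measurable κ ∧ (∀ x, IsProbabilityMeasure (κ x)) ∧
    (∀ᵐ x ∂μ, κ (T x) = κ x) ∧
    ∀ᵐ x ∂μ, ∀ α : ℝ, 0 ≤ α → α < 1 → κ x {α} = 0 →
      ∀ p ∈ TP D (ex α), cz (fun n => (p n : ℂ) * F (T^[n] x))

theorem comp_mp {X : Type u} [MeasurableSpace X] {μ : Measure X} [IsFiniteMeasure μ] {T : X → X}
    (hT : MeasurePreserving T μ μ) (κ : Kernel X ℝ) [IsMarkovKernel κ]
    (hκ : ∀ᵐ x ∂μ, κ (T x) = κ x) :
    MeasurePreserving (fun q : X × ℝ => (T q.1, q.2)) (μ ⊗ₘ κ) (μ ⊗ₘ κ) := by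
  have hm : Measurable (fun q : X × ℝ => (T q.1, q.2)) :=
    (hT.measurable.comp measurable_fst).prodMk measurable_snd
  refine ⟨hm, ?_⟩
  ext s hs
  rw [Measure.map_apply hm hs, Measure.compProd_apply (hm hs), Measure.compProd_apply hs]
  have hg : Measurable fun x => κ x (Prod.mk x ⁻¹' s) := Kernel.measurable_kernel_prodMk_left hs
  rw [← hT.lintegral_comp hg]
  refine lintegral_congr_ae ?_
  filter_upwards [hκ] with x hx
  rw [hx]
  rfl

theorem W_succ {D : ℕ} (h : W.{u} D) (hK : KK.{u} D) : W.{u} (D + 1) := by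
  intro X _ μ _ T hT F hF hb
  obtain ⟨κ, hκm, hκp, hκT, hκ0⟩ := hK X μ T hT F hF hb
  let K : Kernel X ℝ := ⟨κ, hκm⟩
  have : IsMarkovKernel K := ⟨hκp⟩
  have hz := Z_of_W h D le_rfl (X × ℝ) (μ ⊗ₘ K) (fun q => (T q.1, q.2))
    (comp_mp hT K hκT) (fun q => F q.1) (hF.comp measurable_fst) (fun q => hb q.1)
    (fun q => ex q.2) (ex_meas.comp measurable_snd)
  filter_upwards [Measure.ae_ae_of_ae_compProd hz, hκ0] with x hx h0 p hp
  obtain ⟨z, hpz⟩ := exists_TP hp
  obtain ⟨α, hα0, hα1, rfl⟩ := ex_surj z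
  by_cases hα : κ x {α} = 0
  · exact cz_cv (h0 α hα0 hα1 hα p hpz)
  · have h1 : ∃ β ∈ ({α} : Set ℝ), ∀ p ∈ PP D, cv (fun n => (sm^[D] (fun i =>
        ex (((fun q : X × ℝ => (T q.1, q.2))^[i] (x, β)).2)) n : ℂ) *
        ((p n : ℂ) * F (((fun q : X × ℝ => (T q.1, q.2))^[n] (x, β)).1))) := by
      by_contra hcon
      push Not at hcon
      apply hα
      have h2 : κ x {β | ¬ ∀ p ∈ PP D, cv (fun n => (sm^[D] (fun i =>
        ex (((fun q : X × ℝ => (T q.1, q.2))^[i] (x, β)).2)) n : ℂ) *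
        ((p n : ℂ) * F (((fun q : X × ℝ => (T q.1, q.2))^[n] (x, β)).1)))} = 0 := hx
      refine measure_mono_null ?_ h2
      intro β hβ
      obtain ⟨q, hq1, hq2⟩ := hcon β hβ
      intro hall
      exact hq2 (hall q hq1)
    obtain ⟨β, hβ, hβ2⟩ := h1
    rw [Set.mem_singleton_iff] at hβ
    subst hβ
    have hit : ∀ n, (fun q : X × ℝ => (T q.1, q.2))^[n] (x, β) = (T^[n] x, β) := by
      intro n
      induction n with
      | zero => rfl
      | succ n ih => rw [Function.iterate_succ_apply', ih, Function.iterate_succ_apply']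
    refine Eq.mp (congrArg cv (funext fun n => ?_)) (hβ2 _ (TP_split hpz))
    have e1 : (fun i => ex (((fun q : X × ℝ => (T q.1, q.2))^[i] (x, β)).2)) = ct (ex β) := by
      funext i
      rw [hit]
      rfl
    rw [e1, hit]
    simp only [Pi.mul_apply, Pi.inv_apply, Circle.coe_mul, Circle.coe_inv]
    have hne : ((sm^[D] (ct (ex β)) n : Circle) : ℂ) ≠ 0 := Circle.coe_ne_zero _
    field_simp

end

end Pool.Agent.H71.WW
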