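import Pool.Agent.H71.WW.Res
import Pool.Agent.H71.WW.Herg

set_option autoImplicit false

/-!
# The spectral measures of almost all points
-/

namespace Pool.Agent.H71.WW

open MeasureTheory Filter Topology ProbabilityTheory ComplexConjugate
open scoped ENNReal ComplexOrder

universe u

noncomputable section

theorem nonneg_of_lim {r : ℕ → ℝ} {L : ℂ} (hr : ∀ N, 0 ≤ r N)
    (h : Tendsto (fun N => ((r N : ℝ) : ℂ)) atTop (𝓝 L)) : 0 ≤ L := by
  rw [Complex.nonneg_iff]
  constructor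
  · exact ge_of_tendsto' ((Complex.continuous_re.tendsto L).comp h) fun N => by simpa using hr N
  · have h1 := (Complex.continuous_im.tendsto L).comp h
    refine tendsto_nhds_unique (tendsto_const_nhds (x := (0 : ℝ)) (f := (atTop : Filter ℕ))) ?_
    refine h1.congr fun N => ?_
    simp

theorem av1_real (u : ℕ → ℝ) (N : ℕ) :
    av1 (fun n => ((u n : ℝ) : ℂ)) N = (((N : ℝ)⁻¹ * ∑ n ∈ Finset.range N, u n : ℝ) : ℂ) := by
  unfold av1
  push_cast
  rfl

theorem nonneg_of_av {u : ℕ → ℝ} {L : ℂ} (hu : ∀ n, 0 ≤ u n)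
    (h : Tendsto (av1 (fun n => ((u n : ℝ) : ℂ))) atTop (𝓝 L)) : 0 ≤ L := by
  refine nonneg_of_lim (r := fun N => (N : ℝ)⁻¹ * ∑ n ∈ Finset.range N, u n)
    (fun N => mul_nonneg (by positivity) (Finset.sum_nonneg fun n _ => hu n)) ?_
  exact h.congr fun N => av1_real u N

/-- positive definiteness of correlations -/
theorem pos_def {a : ℕ → ℂ} {Γ : ℕ → ℕ → ℂ}
    (hΓ : ∀ k l, Tendsto (av1 (fun n => a (n + k) * conj (a (n + l)))) atTop (𝓝 (Γ k l)))
    (N : ℕ) (b : ℕ → ℂ) :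
    0 ≤ ∑ j ∈ Finset.range N, ∑ k ∈ Finset.range N, star (b k) * b j * Γ k j := by
  have h1 : Tendsto (fun M => ∑ j ∈ Finset.range N, ∑ k ∈ Finset.range N,
      star (b k) * b j * av1 (fun n => a (n + k) * conj (a (n + j))) M) atTop
      (𝓝 (∑ j ∈ Finset.range N, ∑ k ∈ Finset.range N, star (b k) * b j * Γ k j)) :=
    tendsto_finsetSum _ fun j _ => tendsto_finsetSum _ fun k _ => (hΓ k j).const_mul _
  refine nonneg_of_av (u := fun n => ‖∑ k ∈ Finset.range N, star (b k) * a (n + k)‖ ^ 2)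
    (fun n => by positivity) (h1.congr fun M => ?_)
  simp_rw [← av1_mul, ← av1_sum]
  congr 1
  funext n
  rw [← Complex.normSq_eq_norm_sq, ← Complex.mul_conj, map_sum, Finset.sum_mul_sum,
    Finset.sum_comm]
  refine Finset.sum_congr rfl fun k _ => Finset.sum_congr rfl fun j _ => ?_
  rw [map_mul]
  have : conj (star (b j)) = b j := Complex.conj_conj _
  rw [this]
  ring

/-- geometric averages -/
theorem geom_zero {w : ℂ} (h1 : ‖w‖ = 1) (h2 : w ≠ 1) :
    Tendsto (fun K : ℕ => (K : ℂ)⁻¹ * ∑ k ∈ Finset.range K, w ^ k) atTop (𝓝 0) := by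
  have h3 : w - 1 ≠ 0 := sub_ne_zero.2 h2
  have h4 : 0 < ‖w - 1‖ := norm_pos_iff.2 h3
  refine squeeze_zero_norm (fun K => ?_) (tendsto_inv_nat (2 / ‖w - 1‖))
  rw [geom_sum_eq h2, norm_mul, norm_inv, Complex.norm_natCast, norm_div]
  have h5 : ‖w ^ K - 1‖ ≤ 2 := by
    refine (norm_sub_le _ _).trans ?_
    rw [norm_pow, h1, one_pow, norm_one]
    norm_num
  rw [mul_comm]
  exact mul_le_mul_of_nonneg_right (div_le_div_of_nonneg_right h5 h4.le) (by positivity)

/-- the section of the circle -/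
def sec (t : TC) : ℝ := ((AddCircle.measurableEquivIco (1 : ℝ) 0 t : Set.Ico (0 : ℝ) (0 + 1)) : ℝ)

theorem sec_meas : Measurable sec :=
  measurable_subtype_coe.comp (AddCircle.measurableEquivIco (1 : ℝ) 0).measurable

theorem sec_coe {α : ℝ} (h0 : 0 ≤ α) (h1 : α < 1) : sec (α : TC) = α := by
  unfold sec
  have h2 : α ∈ Set.Ico (0 : ℝ) (0 + 1) := ⟨h0, by linarith⟩
  have h3 := AddCircle.equivIco_coe_of_mem (p := (1 : ℝ)) (a := 0) h2
  show ((AddCircle.equivIco (1 : ℝ) 0 (α : TC) : Set.Ico (0 : ℝ) (0 + 1)) : ℝ) = α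
  rw [h3]

theorem fourier_one_coe (α : ℝ) : fourier 1 (α : TC) = (ex α : ℂ) := by
  rw [fourier_coe_apply]
  unfold ex
  rw [Circle.coe_exp]
  congr 1
  push_cast
  ring

theorem fourier_one_inj {s t : TC} (h : (fourier 1 s : ℂ) = fourier 1 t) : s = t := by
  rw [fourier_one, fourier_one] at h
  exact AddCircle.injective_toCircle one_ne_zero (Circle.coe_inj.1 h)

end

end Pool.Agent.H71.WW
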