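import Pool.Agent.H71.WW.PP

set_option autoImplicit false

/-!
# The inequality of van der Corput
-/

namespace Pool.Agent.H71.WW

open Filter Topology ComplexConjugate

noncomputable section

theorem norm_av1_le {u : ℕ → ℂ} {C : ℝ} (h : ∀ n, ‖u n‖ ≤ C) (N : ℕ) (hC : 0 ≤ C) :
    ‖av1 u N‖ ≤ C := by
  unfold av1
  rw [norm_mul, norm_inv, Complex.norm_natCast]
  rcases Nat.eq_zero_or_pos N with rfl | hN
  · simpa using hC
  have hN' : (0 : ℝ) < N := by exact_mod_cast hN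
  rw [inv_mul_le_iff₀ hN']
  calc ‖∑ n ∈ Finset.range N, u n‖ ≤ ∑ n ∈ Finset.range N, ‖u n‖ := norm_sum_le _ _
    _ ≤ ∑ n ∈ Finset.range N, C := Finset.sum_le_sum fun n _ => h n
    _ = N * C := by rw [Finset.sum_const, Finset.card_range, nsmul_eq_mul]

theorem av1_add (u v : ℕ → ℂ) (N : ℕ) : av1 (fun n => u n + v n) N = av1 u N + av1 v N := by
  simp only [av1, Finset.sum_add_distrib, mul_add]

theorem av1_sub (u v : ℕ → ℂ) (N : ℕ) : av1 (fun n => u n - v n) N = av1 u N - av1 v N := by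
  simp only [av1, Finset.sum_sub_distrib, mul_sub]

theorem av1_mul (c : ℂ) (u : ℕ → ℂ) (N : ℕ) : av1 (fun n => c * u n) N = c * av1 u N := by
  simp only [av1, ← Finset.mul_sum]
  ring

theorem av1_sum {ι : Type*} (s : Finset ι) (u : ι → ℕ → ℂ) (N : ℕ) :
    av1 (fun n => ∑ i ∈ s, u i n) N = ∑ i ∈ s, av1 (u i) N := by
  simp only [av1]
  rw [Finset.sum_comm, Finset.mul_sum]

theorem sum_shift_le {u : ℕ → ℂ} (h : ∀ n, ‖u n‖ ≤ 1) (k N : ℕ) :
    ‖∑ n ∈ Finset.range N, u (n + k) - ∑ n ∈ Finset.range N, u n‖ ≤ 2 * k := by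
  induction k with
  | zero => simp
  | succ k ih =>
    have e : ∑ n ∈ Finset.range N, u (n + (k + 1)) =
        ∑ n ∈ Finset.range N, u (n + k) + (u (N + k) - u k) := by
      have h1 := Finset.sum_range_succ (fun n => u (n + k)) N
      have h2 := Finset.sum_range_succ' (fun n => u (n + k)) N
      rw [h1] at h2
      have h3 : ∀ n, u (n + (k + 1)) = u (n + 1 + k) := fun n => by
        rw [show n + (k + 1) = n + 1 + k by ring]
      simp_rw [h3]
      rw [zero_add] at h2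
      linear_combination -h2
    rw [e, add_sub_right_comm]
    refine (norm_add_le _ _).trans ?_
    have h3 := norm_sub_le (u (N + k)) (u k)
    have h4 := h (N + k)
    have h5 := h k
    push_cast
    linarith

theorem av1_shift_le {u : ℕ → ℂ} (h : ∀ n, ‖u n‖ ≤ 1) (k N : ℕ) :
    ‖av1 (fun n => u (n + k)) N - av1 u N‖ ≤ 2 * k * (N : ℝ)⁻¹ := by
  unfold av1
  rw [← mul_sub, norm_mul, norm_inv, Complex.norm_natCast, mul_comm]
  exact mul_le_mul_of_nonneg_right (sum_shift_le h k N) (by positivity)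

theorem tendsto_inv_nat (c : ℝ) : Tendsto (fun N : ℕ => c * (N : ℝ)⁻¹) atTop (𝓝 0) := by
  have := (tendsto_inv_atTop_nhds_zero_nat (𝕜 := ℝ)).const_mul c
  rwa [mul_zero] at this

theorem av1_shift_zero {u : ℕ → ℂ} (h : ∀ n, ‖u n‖ ≤ 1) (k : ℕ) :
    Tendsto (fun N => av1 (fun n => u (n + k)) N - av1 u N) atTop (𝓝 0) :=
  squeeze_zero_norm (fun N => av1_shift_le h k N) (tendsto_inv_nat _)

theorem av1_shift {u : ℕ → ℂ} (h : ∀ n, ‖u n‖ ≤ 1) (k : ℕ) {L : ℂ}
    (hL : Tendsto (av1 u) atTop (𝓝 L)) :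
    Tendsto (av1 (fun n => u (n + k))) atTop (𝓝 L) := by
  have := (av1_shift_zero h k).add hL
  rw [zero_add] at this
  refine this.congr fun N => ?_
  ring

theorem norm_sq_av1_le (b : ℕ → ℂ) (N : ℕ) :
    ‖av1 b N‖ ^ 2 ≤ ‖av1 (fun n => b n * conj (b n)) N‖ := by
  have e : ∀ n, b n * conj (b n) = ((‖b n‖ ^ 2 : ℝ) : ℂ) := fun n => by
    rw [Complex.mul_conj, Complex.normSq_eq_norm_sq]
  simp_rw [e]
  unfold av1
  rw [norm_mul, norm_mul, norm_inv, Complex.norm_natCast, ← Complex.ofReal_sum,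
    Complex.norm_real, Real.norm_of_nonneg (Finset.sum_nonneg fun n _ => by positivity)]
  rcases Nat.eq_zero_or_pos N with rfl | hN
  · simp
  have hN' : (0 : ℝ) < N := by exact_mod_cast hN
  have h1 : ‖∑ n ∈ Finset.range N, b n‖ ^ 2 ≤ N * ∑ n ∈ Finset.range N, ‖b n‖ ^ 2 := by
    have h2 : ‖∑ n ∈ Finset.range N, b n‖ ^ 2 ≤ (∑ n ∈ Finset.range N, ‖b n‖) ^ 2 :=
      pow_le_pow_left₀ (norm_nonneg _) (norm_sum_le _ _) 2
    refine h2.trans ?_
    have h3 := sq_sum_le_card_mul_sum_sq (s := Finset.range N) (f := fun n => ‖b n‖)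
    rwa [Finset.card_range] at h3
  rw [mul_pow]
  calc (N : ℝ)⁻¹ ^ 2 * ‖∑ n ∈ Finset.range N, b n‖ ^ 2 ≤
        (N : ℝ)⁻¹ ^ 2 * (N * ∑ n ∈ Finset.range N, ‖b n‖ ^ 2) :=
        mul_le_mul_of_nonneg_left h1 (by positivity)
    _ = (N : ℝ)⁻¹ * ∑ n ∈ Finset.range N, ‖b n‖ ^ 2 := by
        field_simp

/-- **The inequality of van der Corput**, in the limit. -/
theorem vdc {a : ℕ → ℂ} (ha : ∀ n, ‖a n‖ ≤ 1) {Γ : ℕ → ℕ → ℂ}
    (hΓ : ∀ k l, Tendsto (av1 (fun n => a (n + k) * conj (a (n + l)))) atTop (𝓝 (Γ k l)))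
    (h0 : ∀ ε : ℝ, 0 < ε → ∃ K : ℕ, 1 ≤ K ∧
      ‖(K : ℂ)⁻¹ ^ 2 * ∑ k ∈ Finset.range K, ∑ l ∈ Finset.range K, Γ k l‖ ≤ ε) :
    cz a := by
  show Tendsto (av1 a) atTop (𝓝 0)
  rw [Metric.tendsto_atTop]
  intro ε hε
  obtain ⟨K, hK, hKb⟩ := h0 ((ε / 2) ^ 2 / 2) (by positivity)
  have hK' : (0 : ℝ) < K := by exact_mod_cast hK
  set b : ℕ → ℂ := fun n => (K : ℂ)⁻¹ * ∑ k ∈ Finset.range K, a (n + k) with hb
  have h1 : ∀ N, ‖av1 b N - av1 a N‖ ≤ 2 * K * (N : ℝ)⁻¹ := by
    intro N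
    have e1 : av1 b N - av1 a N = (K : ℂ)⁻¹ * ∑ k ∈ Finset.range K,
        (av1 (fun n => a (n + k)) N - av1 a N) := by
      rw [hb, av1_mul, av1_sum, Finset.sum_sub_distrib, mul_sub, Finset.sum_const,
        Finset.card_range, nsmul_eq_mul, ← mul_assoc, inv_mul_cancel₀, one_mul]
      exact_mod_cast hK'.ne'
    rw [e1, norm_mul, norm_inv, Complex.norm_natCast, inv_mul_le_iff₀ hK']
    refine (norm_sum_le _ _).trans ?_
    calc ∑ k ∈ Finset.range K, ‖av1 (fun n => a (n + k)) N - av1 a N‖ ≤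
          ∑ k ∈ Finset.range K, 2 * K * (N : ℝ)⁻¹ := by
          refine Finset.sum_le_sum fun k hk => (av1_shift_le ha k N).trans ?_
          have : (k : ℝ) ≤ K := by exact_mod_cast (Finset.mem_range.1 hk).le
          gcongr
      _ = K * (2 * K * (N : ℝ)⁻¹) := by
          rw [Finset.sum_const, Finset.card_range, nsmul_eq_mul]
  have h2 : Tendsto (av1 (fun n => b n * conj (b n))) atTop
      (𝓝 ((K : ℂ)⁻¹ ^ 2 * ∑ k ∈ Finset.range K, ∑ l ∈ Finset.range K, Γ k l)) := by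
    have h3 : Tendsto (fun N => (K : ℂ)⁻¹ ^ 2 * ∑ k ∈ Finset.range K, ∑ l ∈ Finset.range K,
        av1 (fun n => a (n + k) * conj (a (n + l))) N) atTop
        (𝓝 ((K : ℂ)⁻¹ ^ 2 * ∑ k ∈ Finset.range K, ∑ l ∈ Finset.range K, Γ k l)) :=
      (tendsto_finsetSum _ fun k _ => tendsto_finsetSum _ fun l _ => hΓ k l).const_mul _
    refine h3.congr fun N => ?_
    simp_rw [← av1_sum]
    rw [← av1_mul]
    congr 1
    funext n
    rw [hb]
    simp only
    rw [map_mul, map_inv₀, Complex.conj_natCast, map_sum, mul_mul_mul_comm, Finset.sum_mul_sum,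
      sq]
  have h4 := h2.norm
  have h5 : ∀ᶠ N in atTop, ‖av1 (fun n => b n * conj (b n)) N‖ < (ε / 2) ^ 2 :=
    (tendsto_order.1 h4).2 _ (hKb.trans_lt (by nlinarith [sq_pos_of_pos (half_pos hε)]))
  have h6 : ∀ᶠ N : ℕ in atTop, 2 * (K : ℝ) * (N : ℝ)⁻¹ < ε / 2 :=
    (tendsto_order.1 (tendsto_inv_nat (2 * K))).2 _ (half_pos hε)
  obtain ⟨N₀, hN₀⟩ := eventually_atTop.1 (h5.and h6)
  refine ⟨N₀, fun N hN => ?_⟩
  obtain ⟨h7, h8⟩ := hN₀ N hN
  have h9 : ‖av1 b N‖ < ε / 2 :=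
    lt_of_pow_lt_pow_left₀ 2 (half_pos hε).le ((norm_sq_av1_le b N).trans_lt h7)
  rw [dist_zero_right]
  have h10 : ‖av1 a N‖ ≤ ‖av1 b N‖ + ‖av1 b N - av1 a N‖ := by
    have := norm_sub_le (av1 b N) (av1 b N - av1 a N)
    rwa [sub_sub_cancel] at this
  have h11 := h1 N
  linarith

/-- correlations at all pairs of shifts -/
theorem corr_all {a : ℕ → ℂ} (ha : ∀ n, ‖a n‖ ≤ 1) {γ : ℕ → ℂ}
    (hγ : ∀ h, Tendsto (av1 (fun n => a (n + h) * conj (a n))) atTop (𝓝 (γ h))) (k l : ℕ) :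
    Tendsto (av1 (fun n => a (n + k) * conj (a (n + l)))) atTop
      (𝓝 (if l ≤ k then γ (k - l) else conj (γ (l - k)))) := by
  have hb : ∀ h n, ‖a (n + h) * conj (a n)‖ ≤ 1 := fun h n => by
    rw [norm_mul, RCLike.norm_conj]
    exact mul_le_one₀ (ha _) (norm_nonneg _) (ha _)
  split_ifs with hkl
  · have := av1_shift (hb (k - l)) l (hγ (k - l))
    refine this.congr fun N => ?_
    congr 1
    funext n
    rw [show n + l + (k - l) = n + k by omega]
  · have h1 := av1_shift (hb (l - k)) k (hγ (l - k))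
    have h2 := (Complex.continuous_conj.tendsto _).comp h1
    refine h2.congr fun N => ?_
    simp only [Function.comp_apply, av1, map_mul, map_inv₀, Complex.conj_natCast, map_sum]
    congr 1
    refine Finset.sum_congr rfl fun n _ => ?_
    rw [show n + k + (l - k) = n + l by omega, Complex.conj_conj, mul_comm]

/-- vanishing correlations -/
theorem vdc_zero {a : ℕ → ℂ} (ha : ∀ n, ‖a n‖ ≤ 1)
    (h : ∀ h : ℕ, 1 ≤ h → cz (fun n => a (n + h) * conj (a n))) : cz a := by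
  by_contra hcon
  -- pass to an ultrafilter free argument: bound the diagonal terms
  apply hcon
  show Tendsto (av1 a) atTop (𝓝 0)
  rw [Metric.tendsto_atTop]
  intro ε hε
  obtain ⟨K, hK⟩ := exists_nat_gt (1 / ((ε / 2) ^ 2 / 2))
  have hε2 : (0 : ℝ) < (ε / 2) ^ 2 / 2 := by positivity
  have hK' : (0 : ℝ) < K := lt_trans (by positivity) hK
  have hK1 : (K : ℝ)⁻¹ < (ε / 2) ^ 2 / 2 := by
    rw [inv_lt_comm₀ hK' hε2, ← one_div]
    exact hK
  set b : ℕ → ℂ := fun n => (K : ℂ)⁻¹ * ∑ k ∈ Finset.range K, a (n + k) with hb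
  have h1 : ∀ N, ‖av1 b N - av1 a N‖ ≤ 2 * K * (N : ℝ)⁻¹ := by
    intro N
    have e1 : av1 b N - av1 a N = (K : ℂ)⁻¹ * ∑ k ∈ Finset.range K,
        (av1 (fun n => a (n + k)) N - av1 a N) := by
      rw [hb, av1_mul, av1_sum, Finset.sum_sub_distrib, mul_sub, Finset.sum_const,
        Finset.card_range, nsmul_eq_mul, ← mul_assoc, inv_mul_cancel₀, one_mul]
      exact_mod_cast hK'.ne'
    rw [e1, norm_mul, norm_inv, Complex.norm_natCast, inv_mul_le_iff₀ hK']
    refine (norm_sum_le _ _).trans ?_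
    calc ∑ k ∈ Finset.range K, ‖av1 (fun n => a (n + k)) N - av1 a N‖ ≤
          ∑ k ∈ Finset.range K, 2 * K * (N : ℝ)⁻¹ := by
          refine Finset.sum_le_sum fun k hk => (av1_shift_le ha k N).trans ?_
          have : (k : ℝ) ≤ K := by exact_mod_cast (Finset.mem_range.1 hk).le
          gcongr
      _ = K * (2 * K * (N : ℝ)⁻¹) := by
          rw [Finset.sum_const, Finset.card_range, nsmul_eq_mul]
  -- off-diagonal terms
  have hoff : Tendsto (fun N => (K : ℂ)⁻¹ ^ 2 * ∑ k ∈ Finset.range K, ∑ l ∈ Finset.range K,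
      if k = l then 0 else av1 (fun n => a (n + k) * conj (a (n + l))) N) atTop (𝓝 0) := by
    have h3 : Tendsto (fun N => (K : ℂ)⁻¹ ^ 2 * ∑ k ∈ Finset.range K, ∑ l ∈ Finset.range K,
        if k = l then 0 else av1 (fun n => a (n + k) * conj (a (n + l))) N) atTop
        (𝓝 ((K : ℂ)⁻¹ ^ 2 * ∑ k ∈ Finset.range K, ∑ l ∈ Finset.range K, (0 : ℂ))) := by
      refine (tendsto_finsetSum _ fun k _ => tendsto_finsetSum _ fun l _ => ?_).const_mul _
      split_ifs with hkl
      · exact tendsto_const_nhds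
      · have hbb : ∀ h n, ‖a (n + h) * conj (a n)‖ ≤ 1 := fun h n => by
          rw [norm_mul, RCLike.norm_conj]
          exact mul_le_one₀ (ha _) (norm_nonneg _) (ha _)
        rcases lt_or_gt_of_ne hkl with hlt | hgt
        · have h4 := av1_shift (hbb (l - k)) k (h (l - k) (by omega))
          have h5 := (Complex.continuous_conj.tendsto _).comp h4
          rw [map_zero] at h5
          refine h5.congr fun N => ?_
          simp only [Function.comp_apply, av1, map_mul, map_inv₀, Complex.conj_natCast, map_sum]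
          congr 1
          refine Finset.sum_congr rfl fun n _ => ?_
          rw [show n + k + (l - k) = n + l by omega, Complex.conj_conj, mul_comm]
        · have h4 := av1_shift (hbb (k - l)) l (h (k - l) (by omega))
          refine h4.congr fun N => ?_
          congr 1
          funext n
          rw [show n + l + (k - l) = n + k by omega]
    simpa using h3
  have h2 : ∀ N, ‖av1 (fun n => b n * conj (b n)) N‖ ≤ (K : ℝ)⁻¹ +
      ‖(K : ℂ)⁻¹ ^ 2 * ∑ k ∈ Finset.range K, ∑ l ∈ Finset.range K,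
        if k = l then 0 else av1 (fun n => a (n + k) * conj (a (n + l))) N‖ := by
    intro N
    have e2 : av1 (fun n => b n * conj (b n)) N = (K : ℂ)⁻¹ ^ 2 * ∑ k ∈ Finset.range K,
        av1 (fun n => a (n + k) * conj (a (n + k))) N +
        (K : ℂ)⁻¹ ^ 2 * ∑ k ∈ Finset.range K, ∑ l ∈ Finset.range K,
        if k = l then 0 else av1 (fun n => a (n + k) * conj (a (n + l))) N := by
      rw [← mul_add, ← Finset.sum_add_distrib]
      have e3 : ∀ k ∈ Finset.range K, (av1 (fun n => a (n + k) * conj (a (n + k))) N +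
          ∑ l ∈ Finset.range K, if k = l then 0 else
            av1 (fun n => a (n + k) * conj (a (n + l))) N) =
          ∑ l ∈ Finset.range K, av1 (fun n => a (n + k) * conj (a (n + l))) N := by
        intro k hk
        rw [← Finset.add_sum_erase _ _ hk,
          ← Finset.add_sum_erase (Finset.range K) (fun l => av1 (fun n =>
            a (n + k) * conj (a (n + l))) N) hk, if_pos rfl, zero_add]
        congr 1
        refine Finset.sum_congr rfl fun l hl => ?_
        rw [if_neg (Finset.ne_of_mem_erase hl).symm]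
      rw [Finset.sum_congr rfl e3]
      simp_rw [← av1_sum]
      rw [← av1_mul]
      congr 1
      funext n
      rw [hb]
      simp only
      rw [map_mul, map_inv₀, Complex.conj_natCast, map_sum, mul_mul_mul_comm,
        Finset.sum_mul_sum, sq]
    rw [e2]
    refine (norm_add_le _ _).trans (add_le_add ?_ le_rfl)
    rw [norm_mul, norm_pow, norm_inv, Complex.norm_natCast]
    have h5 : ‖∑ k ∈ Finset.range K, av1 (fun n => a (n + k) * conj (a (n + k))) N‖ ≤ K := by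
      refine (norm_sum_le _ _).trans ?_
      calc ∑ k ∈ Finset.range K, ‖av1 (fun n => a (n + k) * conj (a (n + k))) N‖ ≤
            ∑ k ∈ Finset.range K, (1 : ℝ) := by
            refine Finset.sum_le_sum fun k _ => norm_av1_le (fun n => ?_) N zero_le_one
            rw [norm_mul, RCLike.norm_conj]
            exact mul_le_one₀ (ha _) (norm_nonneg _) (ha _)
        _ = K := by simp
    calc (K : ℝ)⁻¹ ^ 2 * ‖∑ k ∈ Finset.range K, av1 (fun n => a (n + k) * conj (a (n + k))) N‖ ≤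
          (K : ℝ)⁻¹ ^ 2 * K := mul_le_mul_of_nonneg_left h5 (by positivity)
      _ = (K : ℝ)⁻¹ := by field_simp
  have h5 : ∀ᶠ N in atTop, ‖(K : ℂ)⁻¹ ^ 2 * ∑ k ∈ Finset.range K, ∑ l ∈ Finset.range K,
      if k = l then 0 else av1 (fun n => a (n + k) * conj (a (n + l))) N‖ <
      (ε / 2) ^ 2 / 2 := by
    have := hoff.norm
    rw [norm_zero] at this
    exact (tendsto_order.1 this).2 _ hε2
  have h6 : ∀ᶠ N : ℕ in atTop, 2 * (K : ℝ) * (N : ℝ)⁻¹ < ε / 2 :=
    (tendsto_order.1 (tendsto_inv_nat (2 * K))).2 _ (half_pos hε)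
  obtain ⟨N₀, hN₀⟩ := eventually_atTop.1 (h5.and h6)
  refine ⟨N₀, fun N hN => ?_⟩
  obtain ⟨h7, h8⟩ := hN₀ N hN
  have h9 : ‖av1 b N‖ < ε / 2 := by
    refine lt_of_pow_lt_pow_left₀ 2 (half_pos hε).le ((norm_sq_av1_le b N).trans_lt ?_)
    have := h2 N
    linarith
  rw [dist_zero_right]
  have h10 : ‖av1 a N‖ ≤ ‖av1 b N‖ + ‖av1 b N - av1 a N‖ := by
    have := norm_sub_le (av1 b N) (av1 b N - av1 a N)
    rwa [sub_sub_cancel] at this
  have h11 := h1 N
  linarith

end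

end Pool.Agent.H71.WW
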